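import Pool.Agent.H12.OCS.Mat
import Pool.Agent.H70.OCS.Defs

/-!
# OCS, row SPS: most cells are good

In a cell which is not good every partner near the reference sees the form vary; the rows
`s + mu + i` are then hit, and they are heavy for many scales `i`.
-/

set_option autoImplicit false

namespace Pool.OCS.SP2

open Finset Real
open Pool.Agent.H49.Ent Pool.Agent.H32.Dense Pool.STK Pool.KAF Pool.OCS.M12

section

variable {d : Dat} {A : ℕ}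

/-- The law of the partner of the base. -/
noncomputable def Npt (d : Dat) (i : ℕ) (w : d.Om × d.Om) : d.Om → ℝ :=
  Pool.Agent.H49.Ent.cond d.P (fun ω => (d.L ω, d.Ti i ω)) (d.L w.1, d.Ti i w.1)

theorem Npt_nonneg (hd : d.OK A) (i : ℕ) (w : d.Om × d.Om) (ω : d.Om) : 0 ≤ Npt d i w ω :=
  cond_nonneg hd.law.nonneg _ _ _

theorem Npt_pos (hd : d.OK A) {i : ℕ} {w : d.Om × d.Om} {ω : d.Om} (h : 0 < Npt d i w ω) :
    0 < d.P ω ∧ (d.L ω, d.Ti i ω) = (d.L w.1, d.Ti i w.1) :=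
  (cond_pos_iff hd.law.nonneg _ _ _).1 h

theorem Npt_sum (hd : d.OK A) {i j : ℕ} {w : d.Om × d.Om} (hw : 0 < d.Qp j w) :
    ∑ ω, Npt d i w ω = 1 := by
  refine sum_cond _ _ (ne_of_gt ?_)
  exact law_pos hd.law.nonneg (fun ω => (d.L ω, d.Ti i ω)) (Qp_pos hd hw).1

theorem Q3_eq (hd : d.OK A) (j i : ℕ) (w : d.Om × d.Om) (ω : d.Om) :
    d.Q3 j i (w, ω) = d.Qp j w * Npt d i w ω := by
  unfold Dat.Q3 glue Npt Pool.Agent.H49.Ent.cond
  dsimp only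
  by_cases h : (d.L w.1, d.Ti i w.1) = (d.L ω, d.Ti i ω)
  · rw [if_pos h, if_pos h.symm, (Qp_fst hd j).law (fun ω => (d.L ω, d.Ti i ω)), mul_div_assoc]
  · rw [if_neg h, if_neg (fun h' => h h'.symm), mul_zero]

theorem Q3_ex (hd : d.OK A) (j i : ℕ) (f : (d.Om × d.Om) × d.Om → ℝ) :
    Ex (d.Q3 j i) f = Ex (d.Qp j) (fun w => Ex (Npt d i w) (fun ω => f (w, ω))) := by
  unfold Ex
  rw [Fintype.sum_prod_type]
  refine Finset.sum_congr rfl fun w _ => ?_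
  rw [Finset.mul_sum]
  refine Finset.sum_congr rfl fun ω _ => ?_
  rw [Q3_eq hd]
  ring

/-- Some partner is near the reference and not too near to the base. -/
theorem part_sum (hd : d.OK A) {i j k' : ℕ} {w : d.Om × d.Om} {c : ℝ} (hw : 0 < d.Qp j w) :
    1 ≤ Pr (Npt d i w) {ω | (2 : ℝ) ^ (-((i : ℤ) + k')) ≤ |d.ta (w.1, ω)| ∧
        ‖d.ch (w.1, ω) - d.ch w‖ ≤ c} +
      (Pr (Npt d i w) {ω | |d.ta (w.1, ω)| < (2 : ℝ) ^ (-((i : ℤ) + k'))} +
      Pr (Npt d i w) {ω | c < ‖d.ch (w.1, ω) - d.ch w‖}) := by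
  classical
  have hN := Npt_nonneg hd i w
  have h1 : Pr (Npt d i w) Set.univ = 1 := by
    rw [Pool.Mate.Pr_sum, ← Npt_sum hd (i := i) hw]
    refine Finset.sum_congr rfl fun ω _ => ?_
    rw [if_pos (Set.mem_univ ω)]
  rw [← h1]
  refine (Pr_union hN (F := {ω | (2 : ℝ) ^ (-((i : ℤ) + k')) ≤ |d.ta (w.1, ω)| ∧
        ‖d.ch (w.1, ω) - d.ch w‖ ≤ c})
      (G := {ω | |d.ta (w.1, ω)| < (2 : ℝ) ^ (-((i : ℤ) + k'))} ∪
        {ω | c < ‖d.ch (w.1, ω) - d.ch w‖}) ?_).trans ?_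
  · intro ω _ _
    by_cases h2 : |d.ta (w.1, ω)| < (2 : ℝ) ^ (-((i : ℤ) + k'))
    · exact Or.inr (Or.inl h2)
    · by_cases h3 : c < ‖d.ch (w.1, ω) - d.ch w‖
      · exact Or.inr (Or.inr h3)
      · exact Or.inl ⟨not_lt.1 h2, not_lt.1 h3⟩
  · exact add_le_add le_rfl (Pr_union hN fun v _ hv => hv)

end

/-- The event of a tuple of times. -/
def Wb (d : Dat) (m : ℤ) (j k' i : ℕ) : Set (ℤ × d.Tau × d.Tau × d.Tau) :=
  {x | (‖fun r => d.S x.2.2.1 r - d.S x.2.1 r‖ ≤ (2 : ℝ) ^ (-m) * |d.th x.2.2.1 - d.th x.2.1| ∧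
      (2 : ℝ) ^ (-((j : ℤ) + k')) ≤ |d.th x.2.2.1 - d.th x.2.1|) ∧
    (2 : ℝ) ^ (-((i : ℤ) + k')) ≤ |d.th x.2.2.2 - d.th x.2.1| ∧
    ‖(fun r => (d.S x.2.2.2 r - d.S x.2.1 r) / (d.th x.2.2.2 - d.th x.2.1)) -
      fun r => (d.S x.2.2.1 r - d.S x.2.1 r) / (d.th x.2.2.1 - d.th x.2.1)‖ ≤
      (2 : ℝ) ^ (1 - x.1)}

theorem mem_Wb {d : Dat} {m : ℤ} {mu : d.Om × d.Om → ℤ} {j k' i : ℕ}
    {x : (d.Om × d.Om) × d.Om} :
    (mu x.1, d.T x.1.1, d.T x.1.2, d.T x.2) ∈ Wb d m j k' i ↔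
      x.1 ∈ Bg d j k' m ∧ (2 : ℝ) ^ (-((i : ℤ) + k')) ≤ |d.ta (x.1.1, x.2)| ∧
      ‖d.ch (x.1.1, x.2) - d.ch x.1‖ ≤ (2 : ℝ) ^ (1 - mu x.1) := Iff.rfl

theorem bad_of (hZ : ZUPStmt) (hC : CELStmt) : BADStmt := by
  classical
  intro d A K k' J m mu n h g i₀ k₆ lam j k k₁ e e' u ε₈ hd hs hg hlam hi₀ hi₀n hnj hj hk₆ hL hk
    hk₁ hu hu1 he' hε₈ hrow hJ1 hfs hTB
  have hQ := Qp_nonneg hd j
  have hh := hs.h1
  have hhn := hs.hn
  have hnX := hs.nX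
  have hm2 := hs.m2
  have hlam1 : lam + 1 ≤ i₀ := by omega
  have hn0 : (0 : ℝ) < n := by exact_mod_cast (show 0 < n by omega)
  have hX0 : (0 : ℝ) < d.X := by exact_mod_cast (show 0 < d.X by omega)
  set S := Finset.Ico (8 * n) (d.X - 8 * n) with hS
  set I := Finset.Ico i₀ (2 * n) with hI
  obtain ⟨Ng, hNg⟩ : ∃ Ng : ℕ → d.Om × d.Om → Prop, Ng = fun s w => w ∈ Bg d j k' m ∧
      ¬ Pool.SLO.Gd 1 (d.Qp j) (lab d mu) (y4 d lam) (b1 d m mu j k') K e' s w := ⟨_, rfl⟩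
  obtain ⟨ti, hti⟩ : ∃ ti : ℕ → d.Om × d.Om → ℝ, ti = fun i w =>
      Pr (Npt d i w) {ω | |d.ta (w.1, ω)| < (2 : ℝ) ^ (-((i : ℤ) + k'))} := ⟨_, rfl⟩
  obtain ⟨gi, hgi⟩ : ∃ gi : ℕ → d.Om × d.Om → ℝ, gi = fun i w =>
      Pr (Npt d i w) {ω | (2 : ℝ) ^ (-((i : ℤ) + k')) ≤ |d.ta (w.1, ω)| ∧
        ‖d.ch (w.1, ω) - d.ch w‖ ≤ (2 : ℝ) ^ (1 - mu w)} := ⟨_, rfl⟩
  have hgi0 : ∀ i w, 0 ≤ gi i w := by
    intro i w
    rw [hgi]
    exact Pool.Mate.Pr_nonneg (Npt_nonneg hd i w) _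
  have hti0 : ∀ i w, 0 ≤ ti i w := by
    intro i w
    rw [hti]
    exact Pool.Mate.Pr_nonneg (Npt_nonneg hd i w) _
  obtain ⟨E, hE⟩ : ∃ E : Set (d.Om × d.Om), E =
      {w | u / 64 * n < d.fs i₀ n w ((2 : ℝ) ^ (1 - mu w))} ∪
      ({w | u / 64 * n < ∑ i ∈ I, ti i w} ∪
      {w | w.1 ∈ {ω : d.Om | ∃ j : ℕ, (j + 2) * h ≤ d.X ∧
        (Set.ncard {r | r ∈ J ω ∧ j * h ≤ r ∧ r < (j + 1) * h} : ℝ) < u * h}}) := ⟨_, rfl⟩
  -- step 1
  have h1 : ∀ i ∈ I, e' * ∑ s ∈ S, Ex (d.Qp j) (fun w =>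
      if Ng s w ∧ ((s : ℤ) + (mu w + i)).toNat ∈ J w.1 then gi i w else 0) ≤ e * d.X := by
    intro i hi
    rw [hI, Finset.mem_Ico] at hi
    refine le_trans ?_ (hrow i (by omega) (fun c _ _ _ => c + i) (Wb d m j k' i) ?_)
    · rw [Finset.mul_sum]
      refine Finset.sum_le_sum fun s hsS => ?_
      rw [hS, Finset.mem_Ico] at hsS
      rw [← Ex_smul, Q3_ex hd]
      refine Ex_mono hQ fun w hw => ?_
      by_cases h2 : Ng s w ∧ ((s : ℤ) + (mu w + i)).toNat ∈ J w.1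
      · rw [if_pos h2, hgi]
        simp only
        rw [Pr_ex, ← Ex_smul]
        refine Ex_mono (Npt_nonneg hd i w) fun ω hω => ?_
        by_cases h3 : ω ∈ {ω | (2 : ℝ) ^ (-((i : ℤ) + k')) ≤ |d.ta (w.1, ω)| ∧
            ‖d.ch (w.1, ω) - d.ch w‖ ≤ (2 : ℝ) ^ (1 - mu w)}
        · rw [if_pos h3, mul_one]
          obtain ⟨h4, h5⟩ := h3
          obtain ⟨h2a, h2b⟩ := h2
          rw [hNg] at h2a
          obtain ⟨h6, h7⟩ := h2a
          have hlo := hL.lo w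
          rw [Set.indicator_of_mem (show (w, ω) ∈ {u : (d.Om × d.Om) × d.Om |
            (mu u.1, d.T u.1.1, d.T u.1.2, d.T u.2) ∈ Wb d m j k' i ∧
            0 ≤ (s : ℤ) + (mu u.1 + i) ∧ ((s : ℤ) + (mu u.1 + i)).toNat ∈ J u.1.1} from
            ⟨mem_Wb.2 ⟨h6, h4, h5⟩, by show 0 ≤ (s : ℤ) + (mu w + i); omega, h2b⟩)]
          by_contra h8
          refine h7 (hC d K k' m mu n i₀ k₆ lam j i s k₁ e' w ω hd.law.nonneg hk₆ hL hlam1 hi.1
            (by omega) (by omega) hw h6 (Prod.ext_iff.1 (Npt_pos hd hω).2).2.symm h4 h5 hk₁ ?_)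
          exact (not_le.1 h8).le
        · rw [if_neg h3, mul_zero]
          exact Set.indicator_nonneg
            (fun u _ => Pool.Mate.Pr_nonneg (cond_nonneg hQ _ _) _) _
      · rw [if_neg h2, mul_zero]
        refine Ex_nonneg (Npt_nonneg hd i w) fun ω _ => ?_
        exact Set.indicator_nonneg
            (fun u _ => Pool.Mate.Pr_nonneg (cond_nonneg hQ _ _) _) _
    · intro x v s hx hv hW hs8 hGS
      obtain ⟨h6, h4, h5⟩ := mem_Wb.1 hW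
      have hx1 := (Q3_fst hd j i).pos (Q3_nonneg hd j i) hx
      have hx2 := Qp_pos hd ((Q3_par hd j i).pos (Q3_nonneg hd j i) hx)
      have h7 := hZ d k' m mu n i₀ k₆ lam j i s x.1 v x.2 hk₆ hL hlam1 hi.1 (by omega) (by omega)
        hx1 h6 hGS (Prod.ext_iff.1 hx2.2.2).2 ?_ h5
      · refine h7.trans (zpow_le_zpow_right₀ (by norm_num) ?_)
        show (4 : ℤ) - (s + (mu x.1 + i)) ≤ (k : ℤ) - (s + (mu x.1 + i))
        omega
      · intro h8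
        rw [h8, abs_zero] at h4
        exact absurd h4 (not_le.2 (by positivity))
  -- step 2
  have h2 : e' * ∑ s ∈ S, Ex (d.Qp j) (fun w => ∑ i ∈ I,
      if Ng s w ∧ ((s : ℤ) + (mu w + i)).toNat ∈ J w.1 then gi i w else 0) ≤
      2 * n * (e * d.X) := by
    have h3 := Finset.sum_le_sum h1
    rw [Finset.sum_const, nsmul_eq_mul, ← Finset.mul_sum, Finset.sum_comm] at h3
    simp only [Ex_sum]
    refine h3.trans ?_
    have h4 : 0 ≤ e * d.X := by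
      refine le_trans ?_ (h1 n (by rw [hI, Finset.mem_Ico]; omega))
      refine mul_nonneg he'.le (Finset.sum_nonneg fun s _ => Ex_nonneg hQ fun w _ => ?_)
      split_ifs
      · exact hgi0 _ _
      · exact le_rfl
    refine mul_le_mul_of_nonneg_right ?_ h4
    rw [hI, Nat.card_Ico]
    have h5 : 2 * n - i₀ ≤ 2 * n := Nat.sub_le _ _
    have h6 : ((2 * n - i₀ : ℕ) : ℝ) ≤ ((2 * n : ℕ) : ℝ) := by exact_mod_cast h5
    push_cast at h6
    exact h6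
  -- step 3
  have h3 : ∀ s ∈ S, u / 2 * n * Pr (d.Qp j) {w | Ng s w ∧ w ∉ E} ≤
      Ex (d.Qp j) (fun w => ∑ i ∈ I,
        if Ng s w ∧ ((s : ℤ) + (mu w + i)).toNat ∈ J w.1 then gi i w else 0) := by
    intro s hsS
    rw [hS, Finset.mem_Ico] at hsS
    rw [Pr_ex, ← Ex_smul]
    refine Ex_mono hQ fun w hw => ?_
    by_cases h4 : w ∈ {w | Ng s w ∧ w ∉ E}
    · rw [if_pos h4, mul_one]
      obtain ⟨h5, h6⟩ := h4
      rw [hE] at h6
      simp only [Set.mem_union, not_or] at h6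
      obtain ⟨h6, h7, h8⟩ := h6
      have h6' : d.fs i₀ n w ((2 : ℝ) ^ (1 - mu w)) ≤ u / 64 * n := not_lt.1 h6
      have h7' : ∑ i ∈ I, ti i w ≤ u / 64 * n := not_lt.1 h7
      have hJ : ∀ j : ℕ, (j + 2) * h ≤ d.X →
          u * h ≤ (Set.ncard {r | r ∈ J w.1 ∧ j * h ≤ r ∧ r < (j + 1) * h} : ℝ) := by
        intro j' hj'
        by_contra h11
        exact h8 ⟨j', hj', not_le.1 h11⟩
      have hlo := hL.lo w
      have hhi := hL.hi w
      have h9 := count (J := J w.1) (X := d.X) (h := h) (n := n) (s := s) (c := mu w) (u := u)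
        (by omega) hu.le hJ (by omega) (by omega)
      have h10 : ∑ i ∈ Finset.Ico n (2 * n),
          (if ((s : ℤ) + (mu w + i)).toNat ∈ J w.1 then (1 : ℝ) else 0) ≤
          ∑ i ∈ I, (if ((s : ℤ) + (mu w + i)).toNat ∈ J w.1 then (1 : ℝ) else 0) := by
        refine Finset.sum_le_sum_of_subset_of_nonneg ?_ ?_
        · rw [hI]
          exact Finset.Ico_subset_Ico hi₀n le_rfl
        · intro i _ _
          split_ifs
          · exact zero_le_one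
          · exact le_rfl
      have h11 : ∀ i ∈ I, (if ((s : ℤ) + (mu w + i)).toNat ∈ J w.1 then (1 : ℝ) else 0) ≤
          (if Ng s w ∧ ((s : ℤ) + (mu w + i)).toNat ∈ J w.1 then gi i w else 0) +
          (ti i w + Pr (Npt d i w) {ω | (2 : ℝ) ^ (1 - mu w) < ‖d.ch (w.1, ω) - d.ch w‖}) := by
        intro i _
        have h12 := part_sum hd (i := i) (k' := k') (c := (2 : ℝ) ^ (1 - mu w)) hw
        have h13 : 0 ≤ Pr (Npt d i w) {ω | (2 : ℝ) ^ (1 - mu w) < ‖d.ch (w.1, ω) - d.ch w‖} :=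
          Pool.Mate.Pr_nonneg (Npt_nonneg hd i w) _
        have h14 := hti0 i w
        by_cases h15 : ((s : ℤ) + (mu w + i)).toNat ∈ J w.1
        · rw [if_pos h15, if_pos ⟨h5, h15⟩, hgi, hti]
          exact h12
        · rw [if_neg h15, if_neg fun h16 => h15 h16.2]
          linarith
      have h12 := Finset.sum_le_sum h11
      rw [Finset.sum_add_distrib, Finset.sum_add_distrib] at h12
      have h13 : ∑ i ∈ I, Pr (Npt d i w)
          {ω | (2 : ℝ) ^ (1 - mu w) < ‖d.ch (w.1, ω) - d.ch w‖} =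
          d.fs i₀ n w ((2 : ℝ) ^ (1 - mu w)) := rfl
      rw [h13] at h12
      have h14 : (1024 * h : ℝ) ≤ n := by exact_mod_cast hhn
      have h15 : u * (2 * h) ≤ u * (n / 512) := by
        refine mul_le_mul_of_nonneg_left ?_ hu.le
        linarith
      have h16 : 0 ≤ u * n := by positivity
      have h17 : u * ((n : ℝ) - 2 * h) = u * n - u * (2 * h) := by ring
      rw [h17] at h9
      linarith
    · rw [if_neg h4, mul_zero]
      refine Finset.sum_nonneg fun i _ => ?_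
      split_ifs
      · exact hgi0 _ _
      · exact le_rfl
  -- step 4
  have hJ1' : Pr (d.Qp j) {w | w.1 ∈ {ω : d.Om | ∃ j : ℕ, (j + 2) * h ≤ d.X ∧
      (Set.ncard {r | r ∈ J ω ∧ j * h ≤ r ∧ r < (j + 1) * h} : ℝ) < u * h}} ≤ ε₈ := by
    rw [Pr_fst hd j]
    refine le_trans ?_ hJ1
    refine Pool.Mate.Pr_mono hd.law.nonneg fun ω _ hω => ?_
    obtain ⟨j, h1, h2⟩ := hω
    exact ⟨j, Set.notMem_empty j, h1, h2⟩
  have hT : Pr (d.Qp j) {w | u / 64 * n < ∑ i ∈ I, ti i w} ≤ 128 * ε₈ / u := by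
    have a1 : u / 64 * n * Pr (d.Qp j) {w | u / 64 * n < ∑ i ∈ I, ti i w} ≤
        Ex (d.Qp j) (fun w => ∑ i ∈ I, ti i w) := by
      rw [Pr_ex, ← Ex_smul]
      refine Ex_mono hQ fun w _ => ?_
      by_cases h4 : w ∈ {w | u / 64 * n < ∑ i ∈ I, ti i w}
      · rw [if_pos h4, mul_one]
        exact le_of_lt h4
      · rw [if_neg h4, mul_zero]
        exact Finset.sum_nonneg fun i _ => hti0 i w
    have a2 : Ex (d.Qp j) (fun w => ∑ i ∈ I, ti i w) ≤ ε₈ * (2 * n) := by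
      rw [Ex_sum]
      have a3 : ∀ i ∈ I, Ex (d.Qp j) (ti i) =
          Pr (d.Qp i) {w | |d.ta w| < (2 : ℝ) ^ (-((i : ℤ) + k'))} := by
        intro i _
        rw [← Pr_par hd j i, Pr_ex, Q3_ex hd, hti]
        unfold Ex
        refine Finset.sum_congr rfl fun w _ => ?_
        simp only
        rw [Pr_ex]
        rfl
      rw [Finset.sum_congr rfl a3]
      refine (hTB i₀ (2 * n) (by omega) (by omega)).trans ?_
      refine mul_le_mul_of_nonneg_left ?_ hε₈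
      push_cast
      have : (0 : ℝ) ≤ i₀ := Nat.cast_nonneg _
      linarith
    have a3 := a1.trans a2
    rw [le_div_iff₀ hu]
    have a4 : (n : ℝ) * (Pr (d.Qp j) {w | u / 64 * n < ∑ i ∈ I, ti i w} * u) ≤
        n * (128 * ε₈) := by linarith
    exact le_of_mul_le_mul_left a4 hn0
  have hPE : Pr (d.Qp j) E ≤ ε₈ * (2 + 128 / u) := by
    rw [hE]
    refine (Pr_union hQ fun v _ hv => hv).trans ?_
    have a1 := (Pr_union hQ (E := {w | u / 64 * n < ∑ i ∈ I, ti i w} ∪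
      {w | w.1 ∈ {ω : d.Om | ∃ j : ℕ, (j + 2) * h ≤ d.X ∧
        (Set.ncard {r | r ∈ J ω ∧ j * h ≤ r ∧ r < (j + 1) * h} : ℝ) < u * h}})
        fun v _ hv => hv)
    have a2 : ε₈ * (2 + 128 / u) = ε₈ + (128 * ε₈ / u + ε₈) := by ring
    rw [a2]
    exact add_le_add hfs (a1.trans (add_le_add hT hJ1'))
  have h4 : ∀ s ∈ S, Pr (d.Qp j) {w | w ∈ Bg d j k' m ∧
      ¬ Pool.SLO.Gd 1 (d.Qp j) (lab d mu) (y4 d lam) (b1 d m mu j k') K e' s w} ≤
      Pr (d.Qp j) {w | Ng s w ∧ w ∉ E} + ε₈ * (2 + 128 / u) := by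
    intro s _
    refine (Pr_union hQ (F := {w | Ng s w ∧ w ∉ E}) (G := E) ?_).trans (add_le_add le_rfl hPE)
    intro w _ hw
    by_cases h5 : w ∈ E
    · exact Or.inr h5
    · refine Or.inl ⟨?_, h5⟩
      rw [hNg]
      exact hw
  refine (Finset.sum_le_sum h4).trans ?_
  rw [Finset.sum_add_distrib, Finset.sum_const, nsmul_eq_mul]
  have h5 : (S.card : ℝ) ≤ d.X := by
    rw [hS, Nat.card_Ico]
    exact_mod_cast (show d.X - 8 * n - 8 * n ≤ d.X by omega)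
  have h6 : (S.card : ℝ) * (ε₈ * (2 + 128 / u)) ≤ d.X * (ε₈ * (2 + 128 / u)) :=
    mul_le_mul_of_nonneg_right h5 (by positivity)
  have h7 : ∑ s ∈ S, Pr (d.Qp j) {w | Ng s w ∧ w ∉ E} ≤ 8 * e / (u * e') * d.X := by
    have a1 := Finset.sum_le_sum h3
    rw [← Finset.mul_sum] at a1
    have a2 := (mul_le_mul_of_nonneg_left a1 he'.le).trans h2
    set Sg := ∑ s ∈ S, Pr (d.Qp j) {w | Ng s w ∧ w ∉ E} with hSg
    have a3 : 0 ≤ Sg := Finset.sum_nonneg fun s _ => Pool.Mate.Pr_nonneg hQ _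
    have a4 : (n : ℝ) * (Sg * (u * e')) ≤ n * (4 * (e * d.X)) := by linarith
    have a5 := le_of_mul_le_mul_left a4 hn0
    have a6 : 0 ≤ e * d.X := by
      have : 0 ≤ Sg * (u * e') := mul_nonneg a3 (by positivity)
      linarith
    rw [div_mul_eq_mul_div, le_div_iff₀ (by positivity)]
    linarith
  linarith

end Pool.OCS.SP2
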