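import Pool.Agent.H12.OCS.Mate

/-!
# Shifts which bring active digits to heavy rows
-/

set_option autoImplicit false

namespace Pool.Mate

open Finset Real
open Pool.Agent.H49.Ent Pool.Agent.H32.Dense Pool.STK Pool.KAF

section

variable {Ω : Type} [Fintype Ω]

open Classical in
/-- Counting form of Markov's inequality. -/
theorem markov_card {Q : Ω → ℝ} (hQ : ∀ v, 0 ≤ Q v) (S : Finset ℕ) (E : ℕ → Set Ω) (t : ℝ) :
    t * Pr Q {v | t ≤ ((S.filter fun s => v ∈ E s).card : ℝ)} ≤ ∑ s ∈ S, Pr Q (E s) := by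
  have h1 : ∑ s ∈ S, Pr Q (E s) = ∑ v, Q v * ((S.filter fun s => v ∈ E s).card : ℝ) := by
    simp only [Pr_sum]
    rw [Finset.sum_comm]
    refine Finset.sum_congr rfl fun v _ => ?_
    rw [← Finset.sum_filter, Finset.sum_const, nsmul_eq_mul, mul_comm]
  rw [h1, Pr_sum, Finset.mul_sum]
  refine Finset.sum_le_sum fun v _ => ?_
  by_cases h2 : v ∈ {v | t ≤ ((S.filter fun s => v ∈ E s).card : ℝ)}
  · rw [if_pos h2, mul_comm]
    exact mul_le_mul_of_nonneg_left h2 (hQ v)
  · rw [if_neg h2, mul_zero]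
    exact mul_nonneg (hQ v) (by positivity)

end

open Classical in
/-- If all blocks of length `h` contain at least `u h` elements of `J`, an interval of length
`n` contains at least `u (n - 2 h)`. -/
theorem block_count {J : Set ℕ} {X h : ℕ} {u : ℝ} (hh : 0 < h) (hu : 0 ≤ u)
    (hJ : ∀ j : ℕ, (j + 2) * h ≤ X →
      u * h ≤ (Set.ncard {r | r ∈ J ∧ j * h ≤ r ∧ r < (j + 1) * h} : ℝ)) {a n : ℕ}
    (ha : a + n + h ≤ X) :
    u * ((n : ℝ) - 2 * h) ≤ (((Finset.Ico a (a + n)).filter fun r => r ∈ J).card : ℝ) := by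
  -- blocks `j` with `j₀ ≤ j < j₁` are inside the interval
  set j₀ := (a + h - 1) / h with hj₀
  set j₁ := (a + n) / h with hj₁
  have h1 : a ≤ j₀ * h := by
    have h2 : a + h - 1 < j₀ * h + h := Nat.lt_div_mul_add (a := a + h - 1) hh
    omega
  have h1' : j₀ * h ≤ a + h := by
    have h2 : j₀ * h ≤ a + h - 1 := Nat.div_mul_le_self (a + h - 1) h
    omega
  have h2 : j₁ * h ≤ a + n := Nat.div_mul_le_self _ _
  have h2' : a + n < j₁ * h + h := Nat.lt_div_mul_add hh
  rcases le_or_gt j₁ j₀ with h3 | h3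
  · have h4 : (j₁ : ℝ) * h ≤ j₀ * h := by
      have : (j₁ : ℝ) ≤ j₀ := by exact_mod_cast h3
      gcongr
    have h5 : ((a : ℝ) + n) ≤ j₁ * h + h := by exact_mod_cast h2'.le
    have h6 : (j₀ : ℝ) * h ≤ a + h := by exact_mod_cast h1'
    have h7 : (n : ℝ) - 2 * h ≤ 0 := by linarith
    refine le_trans (mul_nonpos_of_nonneg_of_nonpos hu h7) (by positivity)
  have hsub : (Finset.Ico j₀ j₁).biUnion
      (fun j => (Finset.Ico (j * h) ((j + 1) * h)).filter fun r => r ∈ J) ⊆
      (Finset.Ico a (a + n)).filter fun r => r ∈ J := by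
    intro r hr
    rw [Finset.mem_biUnion] at hr
    obtain ⟨j, hj, hr⟩ := hr
    rw [Finset.mem_Ico] at hj
    rw [Finset.mem_filter, Finset.mem_Ico] at hr ⊢
    have h4 : j₀ * h ≤ j * h := Nat.mul_le_mul_right _ hj.1
    have h5 : (j + 1) * h ≤ j₁ * h := Nat.mul_le_mul_right _ hj.2
    exact ⟨⟨by omega, by omega⟩, hr.2⟩
  have hdis : ∀ x ∈ Finset.Ico j₀ j₁, ∀ y ∈ Finset.Ico j₀ j₁, x ≠ y →
      Disjoint ((Finset.Ico (x * h) ((x + 1) * h)).filter fun r => r ∈ J)
        ((Finset.Ico (y * h) ((y + 1) * h)).filter fun r => r ∈ J) := by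
    intro x _ y _ hxy
    rw [Finset.disjoint_left]
    intro r hr hr'
    rw [Finset.mem_filter, Finset.mem_Ico] at hr hr'
    rcases lt_or_gt_of_ne hxy with h4 | h4
    · have h5 : (x + 1) * h ≤ y * h := Nat.mul_le_mul_right _ h4
      omega
    · have h5 : (y + 1) * h ≤ x * h := Nat.mul_le_mul_right _ h4
      omega
  have h8 := Finset.card_le_card hsub
  rw [Finset.card_biUnion hdis] at h8
  have h9 : ((j₁ - j₀ : ℕ) : ℝ) * (u * h) ≤
      ((∑ j ∈ Finset.Ico j₀ j₁, ((Finset.Ico (j * h) ((j + 1) * h)).filter fun r => r ∈ J).card :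
        ℕ) : ℝ) := by
    push_cast
    rw [← nsmul_eq_mul, ← Nat.card_Ico, ← Finset.sum_const]
    refine Finset.sum_le_sum fun j hj => ?_
    rw [Finset.mem_Ico] at hj
    have h10 : (j + 2) * h ≤ X := by
      have h5 : (j + 1) * h ≤ j₁ * h := Nat.mul_le_mul_right _ hj.2
      have h6 : (j + 2) * h = (j + 1) * h + h := by ring
      omega
    refine (hJ j h10).trans ?_
    have h11 : {r | r ∈ J ∧ j * h ≤ r ∧ r < (j + 1) * h} =
        (((Finset.Ico (j * h) ((j + 1) * h)).filter fun r => r ∈ J : Finset ℕ) : Set ℕ) := by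
      ext r
      simp only [Set.mem_ofPred_eq, Finset.coe_filter, Finset.mem_Ico]
      tauto
    rw [h11, Set.ncard_coe_finset]
  have h10 : (((∑ j ∈ Finset.Ico j₀ j₁,
      ((Finset.Ico (j * h) ((j + 1) * h)).filter fun r => r ∈ J).card : ℕ) : ℝ)) ≤
      (((Finset.Ico a (a + n)).filter fun r => r ∈ J).card : ℝ) := by exact_mod_cast h8
  refine le_trans ?_ (h9.trans h10)
  rw [Nat.cast_sub h3.le]
  have h5 : ((a : ℝ) + n) ≤ j₁ * h + h := by exact_mod_cast h2'.le
  have h6 : (j₀ : ℝ) * h ≤ a + h := by exact_mod_cast h1'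
  have h7 : (n : ℝ) - 2 * h ≤ ((j₁ : ℝ) - j₀) * h := by linarith
  calc u * ((n : ℝ) - 2 * h) ≤ u * (((j₁ : ℝ) - j₀) * h) := by gcongr
    _ = _ := by ring

open Classical in
/-- **Density of the good shifts.** `A` are the active digits. -/
theorem den {J : Set ℕ} {X h : ℕ} {u : ℝ} (hh : 0 < h) (hu : 0 ≤ u) (hu1 : u ≤ 1)
    (hJ : ∀ j : ℕ, (j + 2) * h ≤ X →
      u * h ≤ (Set.ncard {r | r ∈ J ∧ j * h ≤ r ∧ r < (j + 1) * h} : ℝ))
    (A : Finset ℕ) {a₁ a₂ n : ℕ} (hA : ∀ s ∈ A, a₁ ≤ s ∧ s < a₂) (d₀ : ℤ) (hd : 0 ≤ (a₁ : ℤ) + d₀)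
    (hX : (a₂ : ℤ) + d₀ + n + h ≤ X) (hn : 4 * h ≤ n) :
    u / 4 * n ≤ (((Finset.range n).filter fun i : ℕ => u / 4 * A.card ≤
      ((A.filter fun s : ℕ => ((s : ℤ) + (d₀ + i)).toNat ∈ J).card : ℝ)).card : ℝ) := by
  set N : ℕ → ℕ := fun i => (A.filter fun s : ℕ => ((s : ℤ) + (d₀ + i)).toNat ∈ J).card with hN
  set G := (Finset.range n).filter fun i => u / 4 * A.card ≤ (N i : ℝ) with hG
  have h1 : (A.card : ℝ) * (u * ((n : ℝ) - 2 * h)) ≤ ∑ i ∈ Finset.range n, (N i : ℝ) := by
    have h2 : ∑ i ∈ Finset.range n, (N i : ℝ) =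
        ∑ s ∈ A, (((Finset.range n).filter fun i : ℕ => ((s : ℤ) + (d₀ + i)).toNat ∈ J).card : ℝ) := by
      have h3 : ∀ i, (N i : ℝ) = ∑ s ∈ A, if ((s : ℤ) + (d₀ + i)).toNat ∈ J then (1 : ℝ) else 0 := by
        intro i
        rw [hN]
        simp only
        rw [Finset.card_filter]
        push_cast
        rfl
      simp only [h3]
      rw [Finset.sum_comm]
      refine Finset.sum_congr rfl fun s _ => ?_
      rw [Finset.card_filter]
      push_cast
      rfl
    rw [h2, ← nsmul_eq_mul, ← Finset.sum_const]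
    refine Finset.sum_le_sum fun s hs => ?_
    obtain ⟨hs1, hs2⟩ := hA s hs
    obtain ⟨a, ha⟩ : ∃ a : ℕ, (a : ℤ) = s + d₀ := ⟨((s : ℤ) + d₀).toNat, by omega⟩
    have h3 := block_count hh hu hJ (a := a) (n := n) (by omega)
    refine h3.trans ?_
    have h4 : ((Finset.Ico a (a + n)).filter fun r => r ∈ J).card ≤
        ((Finset.range n).filter fun i : ℕ => ((s : ℤ) + (d₀ + i)).toNat ∈ J).card := by
      refine Finset.card_le_card_of_injOn (fun r => r - a) ?_ ?_
      · intro r hr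
        rw [Finset.mem_coe, Finset.mem_filter, Finset.mem_Ico] at hr
        rw [Finset.mem_coe, Finset.mem_filter, Finset.mem_range]
        refine ⟨show r - a < n by omega, ?_⟩
        have h5 : ((s : ℤ) + (d₀ + ((r - a : ℕ) : ℤ))).toNat = r := by omega
        rw [h5]
        exact hr.2
      · intro r hr r' hr' h5
        rw [Finset.mem_coe, Finset.mem_filter, Finset.mem_Ico] at hr hr'
        simp only at h5
        omega
    exact_mod_cast h4
  have h2 : ∑ i ∈ Finset.range n, (N i : ℝ) ≤ G.card * A.card + n * (u / 4 * A.card) := by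
    rw [← Finset.sum_filter_add_sum_filter_not (Finset.range n)
      (fun i => u / 4 * A.card ≤ (N i : ℝ))]
    refine add_le_add ?_ ?_
    · rw [← nsmul_eq_mul, ← Finset.sum_const]
      refine Finset.sum_le_sum fun i _ => ?_
      exact_mod_cast Finset.card_filter_le _ _
    · calc ∑ i ∈ (Finset.range n).filter (fun i => ¬u / 4 * A.card ≤ (N i : ℝ)), (N i : ℝ)
          ≤ ∑ i ∈ (Finset.range n).filter (fun i => ¬u / 4 * A.card ≤ (N i : ℝ)),
            (u / 4 * A.card) := by
            refine Finset.sum_le_sum fun i hi => ?_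
            rw [Finset.mem_filter] at hi
            exact (not_le.mp hi.2).le
        _ ≤ n * (u / 4 * A.card) := by
            rw [Finset.sum_const, nsmul_eq_mul]
            have h3 : (((Finset.range n).filter fun i => ¬u / 4 * A.card ≤ (N i : ℝ)).card : ℝ) ≤
                n := by
              have := Finset.card_filter_le (Finset.range n)
                (fun i => ¬u / 4 * A.card ≤ (N i : ℝ))
              rw [Finset.card_range] at this
              exact_mod_cast this
            gcongr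
  have hn' : (4 * h : ℝ) ≤ n := by exact_mod_cast hn
  rcases Nat.eq_zero_or_pos A.card with hA0 | hA0
  · have h3 : G = Finset.range n := by
      refine Finset.filter_true_of_mem fun i _ => ?_
      rw [hA0]
      simp
    rw [h3, Finset.card_range]
    have h4 : (0 : ℝ) ≤ n := by positivity
    nlinarith
  · have hA' : (0 : ℝ) < A.card := by exact_mod_cast hA0
    have h3 := h1.trans h2
    have h4 : (A.card : ℝ) * (u / 2 * n) ≤ (A.card : ℝ) * (u * ((n : ℝ) - 2 * h)) := by
      refine mul_le_mul_of_nonneg_left ?_ hA'.le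
      nlinarith
    have h5 : (A.card : ℝ) * (u / 4 * n) ≤ (A.card : ℝ) * G.card := by nlinarith
    exact le_of_mul_le_mul_left h5 hA'

end Pool.Mate
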