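import Pool.Agent.H12.OCS.MatB

/-!
# The relation of the mates: proof of `MATStmt`
-/

set_option autoImplicit false

namespace Pool.OCS.M12

open Finset Real
open Pool.Agent.H49.Ent Pool.Agent.H32.Dense Pool.STK Pool.KAF

open Classical in
/-- Heavy rows at the shifts `c + i`. -/
theorem count {J : Set ℕ} {X h n s : ℕ} {c : ℤ} {u : ℝ} (hh : 0 < h) (hu : 0 ≤ u)
    (hJ : ∀ j : ℕ, (j + 2) * h ≤ X →
      u * h ≤ (Set.ncard {r | r ∈ J ∧ j * h ≤ r ∧ r < (j + 1) * h} : ℝ))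
    (h0 : 0 ≤ (s : ℤ) + c + n) (hX : (s : ℤ) + c + 2 * n + h ≤ X) :
    u * ((n : ℝ) - 2 * h) ≤
      ∑ i ∈ Finset.Ico n (2 * n), (if ((s : ℤ) + (c + i)).toNat ∈ J then (1 : ℝ) else 0) := by
  obtain ⟨a, ha⟩ : ∃ a : ℕ, (a : ℤ) = s + c + n := ⟨((s : ℤ) + c + n).toNat, by omega⟩
  refine (Pool.Mate.block_count hh hu hJ (a := a) (n := n) (by omega)).trans (le_of_eq ?_)
  rw [Finset.card_filter]
  push_cast
  rw [Finset.sum_Ico_eq_sum_range, Finset.sum_Ico_eq_sum_range]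
  rw [show a + n - a = n by omega, show 2 * n - n = n by omega]
  refine Finset.sum_congr rfl fun l _ => ?_
  rw [show ((s : ℤ) + (c + ((n + l : ℕ) : ℤ))).toNat = a + l by omega]

theorem aS_nonneg {d : Dat} {A : ℕ} (hd : d.OK A) (b s : ℕ) (ω : d.Om) : 0 ≤ aS d b s ω :=
  Pool.Mate.Pr_nonneg (cond_nonneg hd.law.nonneg _ _) _

theorem aS_le {d : Dat} {A : ℕ} (hd : d.OK A) (b s : ℕ) (ω : d.Om) : aS d b s ω ≤ 1 :=
  Pr_cond_le hd.law.nonneg _ _ _

theorem main {d : Dat} {A : ℕ} (hd : d.OK A) {J : d.Om → Set ℕ} {m : ℤ}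
    {n h g lam j k k₁ b k' k₅ : ℕ} {e ε ε₈ u c₃ : ℝ} {Λ : d.Om → Fin 2 → ℝ}
    (hs : Siz d n h m) (hj : j ≤ n / 2) (hg : 64 * g ≤ n) (hlam : 64 * lam ≤ n)
    (hn : 8 * k₅ + 256 ≤ n) (hn' : k' + b + 8 ≤ n) (hu : 0 < u) (hk : 8 ≤ k)
    (hk₁ : k' + b + 6 ≤ k₁) (hrow : RowM d J (cl d Λ) n j k k₁ e)
    (hac : ∑ s ∈ Finset.Ico (8 * n) (d.X - 8 * n),
      Ex (d.Qp j) (fun w => max 0 (aS d b s w.2 - aM d (cl d Λ) n j (b + 2) s w)) ≤ ε₈ * d.X)
    (hTB : TB d g k' ε₈) (hAG : AGS d (Act d n b c₃) m n n (k₅ + lam) Λ ε) :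
    Pr (d.Qp j) (Bp d (Act d n b c₃) J m n j g h u Λ) * (c₃ * d.X * (u * ((n : ℝ) - 2 * h))) ≤
      n * d.X * (e + 2 * ε₈ + ε) := by
  classical
  set G := Act d n b c₃ with hG
  set B := Bp d G J m n j g h u Λ with hB
  set c := cl d Λ with hc
  set S := Finset.Ico (8 * n) (d.X - 8 * n) with hS
  have hQ := Qp_nonneg hd j
  have hh := hs.h1
  have hhn := hs.hn
  have hnX := hs.nX
  have hnh : (0 : ℝ) ≤ (n : ℝ) - 2 * h := by
    have : (1024 * h : ℝ) ≤ n := by exact_mod_cast hhn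
    have : (0 : ℝ) ≤ h := by positivity
    linarith
  let f : ℕ → ℕ → d.Om × d.Om → ℝ := fun i s w =>
    if w ∈ B ∧ ((s : ℤ) + (c w + i)).toNat ∈ J w.1 then aS d b s w.2 else 0
  -- step A
  have hA : Pr (d.Qp j) B * (c₃ * d.X * (u * ((n : ℝ) - 2 * h))) ≤
      Ex (d.Qp j) (fun w => ∑ i ∈ Finset.Ico n (2 * n), ∑ s ∈ S, f i s w) := by
    rw [Pr_ex, mul_comm, ← Ex_smul]
    refine Ex_mono hQ fun w _ => ?_
    by_cases hw : w ∈ B
    · rw [if_pos hw, mul_one, Finset.sum_comm]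
      obtain ⟨_, _, h3, h4⟩ := cl_spec hd hs hj hg hw
      have h34 : c w = cl d Λ w := rfl
      rw [← h34] at h3 h4
      have hw' := hw
      obtain ⟨_, h5, _, _, _, h6⟩ := hw'
      have h5' : c₃ * d.X ≤ ∑ s ∈ S, aS d b s w.2 := h5
      refine (mul_le_mul_of_nonneg_right h5' (mul_nonneg hu.le hnh)).trans ?_
      rw [Finset.sum_mul]
      refine Finset.sum_le_sum fun s hsS => ?_
      rw [hS, Finset.mem_Ico] at hsS
      have h7 := count (J := J w.1) (X := d.X) (h := h) (n := n) (s := s) (c := c w) (u := u)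
        (by omega) hu.le h6 (by omega) (by omega)
      refine (mul_le_mul_of_nonneg_left h7 (aS_nonneg hd b s w.2)).trans (le_of_eq ?_)
      rw [Finset.mul_sum]
      refine Finset.sum_congr rfl fun i _ => ?_
      show aS d b s w.2 * (if ((s : ℤ) + (c w + i)).toNat ∈ J w.1 then (1 : ℝ) else 0) =
        if w ∈ B ∧ ((s : ℤ) + (c w + i)).toNat ∈ J w.1 then aS d b s w.2 else 0
      by_cases h8 : ((s : ℤ) + (c w + i)).toNat ∈ J w.1
      · rw [if_pos h8, if_pos ⟨hw, h8⟩, mul_one]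
      · rw [if_neg h8, if_neg fun h9 => h8 h9.2, mul_zero]
    · rw [if_neg hw, mul_zero]
      refine Finset.sum_nonneg fun i _ => Finset.sum_nonneg fun s _ => ?_
      show 0 ≤ if w ∈ B ∧ ((s : ℤ) + (c w + i)).toNat ∈ J w.1 then aS d b s w.2 else 0
      split_ifs
      · exact aS_nonneg hd b s w.2
      · exact le_rfl
  refine hA.trans ?_
  rw [Ex_sum]
  -- step C
  have hC : ∀ i ∈ Finset.Ico n (2 * n), Ex (d.Qp j) (fun w => ∑ s ∈ S, f i s w) ≤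
      (e + ε₈) * d.X + d.X * (Pr (d.Qp i) {w | w.1 ∈ G ∧
        (2 : ℝ) ^ (((k₅ + lam : ℕ) : ℤ) - m - n) * |d.ta w| <
          ‖fun r => d.sg w r - d.ta w * Λ w.1 r‖} +
        Pr (d.Qp i) {w | |d.ta w| < (2 : ℝ) ^ (-((i : ℤ) + k'))}) := by
    intro i hi
    rw [Finset.mem_Ico] at hi
    have hQ3 := Q3_nonneg hd j i
    rw [← (Q3_fst hd j i).ex (fun w => ∑ s ∈ S, f i s w), Ex_sum S]
    have hr := hrow i (by omega) (fun c _ _ _ => c + i) (Ws d n k' i)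
      (fun x v s _ _ hW _ hv => rowM_up hd (by omega) hk hW hv)
    have h1 : ∀ s ∈ S, Ex (d.Q3 j i) (fun x => f i s x.1) ≤
        Ex (d.Q3 j i) (Set.indicator
          {u | (c u.1, d.T u.1.1, d.T u.1.2, d.T u.2) ∈ Ws d n k' i ∧
            0 ≤ (s : ℤ) + (c u.1 + i) ∧ ((s : ℤ) + (c u.1 + i)).toNat ∈ J u.1.1}
          (fun u => Pr (Pool.Agent.H49.Ent.cond (d.Qp j) (d.GM c n s) (d.GM c n s u.1))
            {v | (2 : ℝ) ^ (-((s : ℤ) + (c u.1 + i) + k₁)) ≤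
              |d.ZR (d.T u.1.1) (d.T u.2) (d.L u.1.1) -
                d.ZR (d.T u.1.1) (d.T u.2) (d.L v.1)|})) +
        Ex (d.Qp j) (fun w => max 0 (aS d b s w.2 - aM d c n j (b + 2) s w)) +
        Pr (d.Qp i) (Bd d G m n (k₅ + lam) k' i Λ) := by
      intro s hsS
      rw [hS, Finset.mem_Ico] at hsS
      rw [← (Q3_fst hd j i).ex (fun w => max 0 (aS d b s w.2 - aM d c n j (b + 2) s w)),
        ← Pr_par hd j i, Pr_ex, ← Ex_add, ← Ex_add]
      refine Ex_mono hQ3 fun x hx => ?_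
      set a₁ := Set.indicator
          {u | (c u.1, d.T u.1.1, d.T u.1.2, d.T u.2) ∈ Ws d n k' i ∧
            0 ≤ (s : ℤ) + (c u.1 + i) ∧ ((s : ℤ) + (c u.1 + i)).toNat ∈ J u.1.1}
          (fun u => Pr (Pool.Agent.H49.Ent.cond (d.Qp j) (d.GM c n s) (d.GM c n s u.1))
            {v | (2 : ℝ) ^ (-((s : ℤ) + (c u.1 + i) + k₁)) ≤
              |d.ZR (d.T u.1.1) (d.T u.2) (d.L u.1.1) -
                d.ZR (d.T u.1.1) (d.T u.2) (d.L v.1)|}) x with ha₁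
      have ha₁0 : 0 ≤ a₁ := Set.indicator_nonneg
        (fun u _ => Pool.Mate.Pr_nonneg (cond_nonneg hQ _ _) _) x
      have ha₂ : 0 ≤ max 0 (aS d b s x.1.2 - aM d c n j (b + 2) s x.1) := le_max_left _ _
      have ha₃ : (0 : ℝ) ≤ if x ∈ {u : (d.Om × d.Om) × d.Om | (u.1.1, u.2) ∈
          Bd d G m n (k₅ + lam) k' i Λ} then 1 else 0 := by
        split_ifs
        · exact zero_le_one
        · exact le_rfl
      show (if x.1 ∈ B ∧ ((s : ℤ) + (c x.1 + i)).toNat ∈ J x.1.1 then aS d b s x.1.2 else 0) ≤ _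
      by_cases h2 : x.1 ∈ B ∧ ((s : ℤ) + (c x.1 + i)).toNat ∈ J x.1.1
      · rw [if_pos h2]
        by_cases h3 : (x.1.1, x.2) ∈ Bd d G m n (k₅ + lam) k' i Λ
        · rw [if_pos (show x ∈ {u : (d.Om × d.Om) × d.Om | (u.1.1, u.2) ∈
            Bd d G m n (k₅ + lam) k' i Λ} from h3)]
          have := aS_le hd b s x.1.2
          linarith
        · have h4 := mem_Ws hd hs hj hg hlam hn hi.1 hi.2 hx h2.1 h3
          obtain ⟨_, _, h5, _⟩ := cl_spec hd hs hj hg h2.1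
          have h34 : c x.1 = cl d Λ x.1 := rfl
          rw [← h34] at h4 h5
          have h6 : a₁ = Pr (Pool.Agent.H49.Ent.cond (d.Qp j) (d.GM c n s) (d.GM c n s x.1))
              {v | (2 : ℝ) ^ (-((s : ℤ) + (c x.1 + i) + k₁)) ≤
                |d.ZR (d.T x.1.1) (d.T x.2) (d.L x.1.1) -
                  d.ZR (d.T x.1.1) (d.T x.2) (d.L v.1)|} := by
            rw [ha₁]
            refine Set.indicator_of_mem ?_ _
            exact ⟨h4, by omega, h2.2⟩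
          have h7 : aM d c n j (b + 2) s x.1 ≤ a₁ := by
            rw [h6]
            unfold aM
            refine Pool.Mate.Pr_mono (cond_nonneg hQ _ _) fun v hv hv' => ?_
            obtain ⟨_, h8⟩ := (cond_pos_iff hQ _ _ _).1 hv
            have h9 := rowM_use hd h4 h8 (a := b + 2) hv' (by omega)
            refine le_trans ?_ h9
            exact zpow_le_zpow_right₀ (by norm_num) (by omega)
          have h8 := le_max_right 0 (aS d b s x.1.2 - aM d c n j (b + 2) s x.1)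
          linarith
      · rw [if_neg h2]
        linarith
    refine (Finset.sum_le_sum h1).trans ?_
    rw [Finset.sum_add_distrib, Finset.sum_add_distrib, Finset.sum_const, nsmul_eq_mul]
    have h2 : Pr (d.Qp i) (Bd d G m n (k₅ + lam) k' i Λ) ≤
        Pr (d.Qp i) {w | w.1 ∈ G ∧ (2 : ℝ) ^ (((k₅ + lam : ℕ) : ℤ) - m - n) * |d.ta w| <
          ‖fun r => d.sg w r - d.ta w * Λ w.1 r‖} +
        Pr (d.Qp i) {w | |d.ta w| < (2 : ℝ) ^ (-((i : ℤ) + k'))} :=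
      Pr_union (Qp_nonneg hd i) fun v _ hv => hv
    have h3 : (S.card : ℝ) ≤ d.X := by
      rw [hS, Nat.card_Ico]
      exact_mod_cast (show d.X - 8 * n - 8 * n ≤ d.X by omega)
    have h4 := mul_le_mul h3 h2 (Pool.Mate.Pr_nonneg (Qp_nonneg hd i) _) (by positivity)
    linarith
  refine (Finset.sum_le_sum hC).trans ?_
  rw [Finset.sum_add_distrib, Finset.sum_const, Nat.card_Ico, nsmul_eq_mul,
    show 2 * n - n = n by omega, ← Finset.mul_sum, Finset.sum_add_distrib]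
  have hAG' := hAG
  unfold AGS at hAG'
  have hT := hTB n (2 * n) (by omega) (by omega)
  push_cast at hT
  have hX0 : (0 : ℝ) ≤ d.X := by positivity
  have h5 := mul_le_mul_of_nonneg_left (add_le_add hAG' hT) hX0
  have h6 : (n : ℝ) * ((e + ε₈) * d.X) + d.X * (ε * n + ε₈ * (2 * n - n)) =
      n * d.X * (e + 2 * ε₈ + ε) := by ring
  linarith

/-- **MAT.** -/
theorem mat_thm : MATStmt := by
  classical
  intro u c₃ ε₉ hu hu1 hc₃ hε₉
  have hcu : 0 < c₃ * u := mul_pos hc₃ hu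
  set K : ℝ := 2 / (c₃ * u) with hK
  have hK0 : 0 < K := by positivity
  refine ⟨K + 1, ε₉ / (4 * (K + 1)), by positivity, by positivity, ?_⟩
  intro A b k' k₅
  refine ⟨k' + b + 6, 8 * k₅ + 256 + (k' + b + 8), ε₉ / (4 * (K + 1)), by positivity, ?_⟩
  intro d J m n h g lam j k k₁ e ε Λ hd hs hn hg hlam hj hk hk₁ he hrow hJ1 hTA hTB hΛd hAG hΛ
  set ε₈ : ℝ := ε₉ / (4 * (K + 1)) with hε₈
  have hQ := Qp_nonneg hd j
  obtain ⟨hr1, hr2⟩ := hrow (cl d Λ) (cl_lb hΛd) (cl_abs d Λ)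
  have hm := main (b := b) (c₃ := c₃) hd hs hj hg hlam (by omega) (by omega) hu hk hk₁ hr1 hr2
    hTB hAG
  have hh := hs.h1
  have hhn := hs.hn
  have hnX := hs.nX
  set p := Pr (d.Qp j) (Bp d (Act d n b c₃) J m n j g h u Λ) with hp
  have hp0 : 0 ≤ p := Pool.Mate.Pr_nonneg hQ _
  have hn0 : (0 : ℝ) < n := by exact_mod_cast (show 0 < n by omega)
  have hX0 : (0 : ℝ) < d.X := by exact_mod_cast (show 0 < d.X by omega)
  have h1 : p ≤ K * (e + 2 * ε₈ + ε) := by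
    have h2 : (n : ℝ) / 2 ≤ n - 2 * h := by
      have : (1024 * h : ℝ) ≤ n := by exact_mod_cast hhn
      have : (0 : ℝ) ≤ h := by positivity
      linarith
    have h3 : p * (c₃ * d.X * (u * (n / 2))) ≤ n * d.X * (e + 2 * ε₈ + ε) := by
      refine le_trans ?_ hm
      gcongr
    have h4 : (n * d.X : ℝ) * (p * (c₃ * u)) ≤ (n * d.X) * (2 * (e + 2 * ε₈ + ε)) := by
      linarith
    have h5 := le_of_mul_le_mul_left h4 (by positivity)
    rw [hK, div_mul_eq_mul_div, le_div_iff₀ hcu]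
    exact h5
  -- the exceptional sets
  have hX1 : j + g ≤ d.X := by omega
  have hT := hTA j (j + g) le_rfl hX1
  have hJ1' : Pr (d.Qp j) {w | w.1 ∈ {ω : d.Om | ∃ j : ℕ, (j + 2) * h ≤ d.X ∧
      (Set.ncard {r | r ∈ J ω ∧ j * h ≤ r ∧ r < (j + 1) * h} : ℝ) < u * h}} ≤ ε₈ := by
    rw [Pr_fst hd j]
    refine le_trans ?_ hJ1
    refine Pool.Mate.Pr_mono hd.law.nonneg fun ω _ hω => ?_
    obtain ⟨j, h1, h2⟩ := hω
    exact ⟨j, Set.notMem_empty j, h1, h2⟩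
  have hΛ' : Pr (d.Qp j) {w | w.1 ∈ {ω | ω ∈ Act d n b c₃ ∧ (2 : ℝ) ^ (-m) < ‖Λ ω‖}} ≤ ε := by
    rw [Pr_fst hd j]
    exact hΛ
  unfold MAT
  have h6 : Pr (d.Qp j) {w | w.1 ∈ Act d n b c₃ ∧ w.2 ∈ Act d n b c₃ ∧
      (2 : ℝ) ^ (-(m + (3 * n / 8 : ℕ))) * |d.ta w| <
        |∑ r, (d.sg w r + d.ta w * Λ w.1 r) * d.e (d.T w.2) r|} ≤
      p + (Pr (d.Qp j) {w | |d.ta w| < (2 : ℝ) ^ (-((j + g : ℕ) : ℤ))} +
        (Pr (d.Qp j) {w | w.1 ∈ {ω : d.Om | ∃ j : ℕ, (j + 2) * h ≤ d.X ∧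
          (Set.ncard {r | r ∈ J ω ∧ j * h ≤ r ∧ r < (j + 1) * h} : ℝ) < u * h}} +
        Pr (d.Qp j) {w | w.1 ∈ {ω | ω ∈ Act d n b c₃ ∧ (2 : ℝ) ^ (-m) < ‖Λ ω‖}})) := by
    refine (Pr_union hQ (G := {w | |d.ta w| < (2 : ℝ) ^ (-((j + g : ℕ) : ℤ))} ∪
        ({w | w.1 ∈ {ω : d.Om | ∃ j : ℕ, (j + 2) * h ≤ d.X ∧
          (Set.ncard {r | r ∈ J ω ∧ j * h ≤ r ∧ r < (j + 1) * h} : ℝ) < u * h}} ∪
        {w | w.1 ∈ {ω | ω ∈ Act d n b c₃ ∧ (2 : ℝ) ^ (-m) < ‖Λ ω‖}}))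
      (F := Bp d (Act d n b c₃) J m n j g h u Λ) ?_).trans ?_
    · rintro w _ ⟨hw1, hw2, hw3⟩
      by_contra h7
      rw [not_or] at h7
      obtain ⟨h7, h8⟩ := h7
      simp only [Set.mem_union, not_or] at h8
      obtain ⟨h8, h9, h10⟩ := h8
      refine h7 ⟨hw1, hw2, hw3, not_lt.1 h8, ?_, ?_⟩
      · by_contra h11
        exact h10 ⟨hw1, not_le.1 h11⟩
      · intro j' hj'
        by_contra h11
        exact h9 ⟨j', hj', not_le.1 h11⟩
    · refine add_le_add le_rfl ((Pr_union hQ fun v _ hv => hv).trans ?_)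
      exact add_le_add le_rfl (Pr_union hQ fun v _ hv => hv)
  refine h6.trans ?_
  have h7 : (4 * (K + 1)) * ε₈ = ε₉ := by
    rw [hε₈]
    field_simp
  have h8 : K * e ≤ K * ε₈ := by gcongr
  have hε₈0 : 0 < ε₈ := by positivity
  nlinarith

end Pool.OCS.M12
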