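import Pool.Agent.H88.OCS.Stmts
import Pool.Agent.H12.OCS.Den

/-!
# The relation of the mates: algebra

`Fm` is the coefficient of the velocity along the fan in the form of a base `t₀` and a partner
`t`, the data of the exact point at the time `t₁` being fixed.
-/

set_option autoImplicit false

namespace Pool.OCS.M12

open Finset Real
open Pool.Agent.H49.Ent Pool.Agent.H32.Dense Pool.STK Pool.KAF

/-! ### probabilities -/

section

variable {Ω γ : Type} [Fintype Ω]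

open Classical in
theorem Pr_ex (Q : Ω → ℝ) (E : Set Ω) : Pr Q E = Ex Q (fun v => if v ∈ E then 1 else 0) := by
  rw [Pool.Mate.Pr_sum]
  unfold Ex
  refine Finset.sum_congr rfl fun v _ => ?_
  by_cases h : v ∈ E
  · simp only [if_pos h, mul_one]
  · simp only [if_neg h, mul_zero]

theorem Ex_sum {ι : Type} (s : Finset ι) (Q : Ω → ℝ) (f : ι → Ω → ℝ) :
    Ex Q (fun v => ∑ i ∈ s, f i v) = ∑ i ∈ s, Ex Q (f i) := by
  unfold Ex
  rw [Finset.sum_comm]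
  refine Finset.sum_congr rfl fun v _ => ?_
  rw [Finset.mul_sum]

theorem Pr_cond_le {Q : Ω → ℝ} (hQ : ∀ v, 0 ≤ Q v) (G : Ω → γ) (z : γ) (E : Set Ω) :
    Pr (Pool.Agent.H49.Ent.cond Q G z) E ≤ 1 := by
  classical
  rcases eq_or_ne (law Q G z) 0 with h | h
  · have h1 : ∀ v, Pool.Agent.H49.Ent.cond Q G z v = 0 := by
      intro v
      unfold Pool.Agent.H49.Ent.cond
      rw [h]
      simp
    rw [Pool.Mate.Pr_sum]
    simp [h1]
  · rw [Pool.Mate.Pr_sum, ← sum_cond Q G h]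
    refine Finset.sum_le_sum fun v _ => ?_
    split_ifs
    · exact le_rfl
    · exact cond_nonneg hQ _ _ _

theorem Pr_union {Q : Ω → ℝ} (hQ : ∀ v, 0 ≤ Q v) {E F G : Set Ω}
    (h : ∀ v, 0 < Q v → v ∈ E → v ∈ F ∨ v ∈ G) : Pr Q E ≤ Pr Q F + Pr Q G := by
  classical
  rw [Pool.Mate.Pr_sum, Pool.Mate.Pr_sum, Pool.Mate.Pr_sum, ← Finset.sum_add_distrib]
  refine Finset.sum_le_sum fun v _ => ?_
  rcases (hQ v).eq_or_lt with h2 | h2
  · rw [← h2]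
    simp
  · by_cases h1 : v ∈ E
    · rw [if_pos h1]
      rcases h v h2 h1 with h3 | h3
      · rw [if_pos h3]
        split_ifs <;> linarith
      · rw [if_pos h3]
        split_ifs <;> linarith
    · rw [if_neg h1]
      split_ifs <;> linarith

end

/-! ### laws of pairs and triples -/

section

variable {d : Dat} {A : ℕ}

theorem Qp_nonneg (hd : d.OK A) (i : ℕ) (w : d.Om × d.Om) : 0 ≤ d.Qp i w :=
  glue_nonneg (Z₁ := fun ω => (d.L ω, d.Ti i ω)) (Z₂ := fun ω => (d.L ω, d.Ti i ω))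
    hd.law.nonneg hd.law.nonneg w

theorem Qp_fst (hd : d.OK A) (i : ℕ) : Marg (d.Qp i) d.P (fun w => w.1) :=
  marg_fst (Z₁ := fun ω => (d.L ω, d.Ti i ω)) (Z₂ := fun ω => (d.L ω, d.Ti i ω))
    hd.law.nonneg fun _ => rfl

theorem Qp_snd (hd : d.OK A) (i : ℕ) : Marg (d.Qp i) d.P (fun w => w.2) :=
  marg_snd (Z₁ := fun ω => (d.L ω, d.Ti i ω)) (Z₂ := fun ω => (d.L ω, d.Ti i ω))
    hd.law.nonneg fun _ => rfl

theorem Q3_nonneg (hd : d.OK A) (j i : ℕ) (u : (d.Om × d.Om) × d.Om) : 0 ≤ d.Q3 j i u :=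
  glue_nonneg (Z₁ := fun w : d.Om × d.Om => (d.L w.1, d.Ti i w.1))
    (Z₂ := fun ω => (d.L ω, d.Ti i ω)) (Qp_nonneg hd j) hd.law.nonneg u

theorem Q3_fst (hd : d.OK A) (j i : ℕ) : Marg (d.Q3 j i) (d.Qp j) (fun u => u.1) :=
  marg_fst (Z₁ := fun w : d.Om × d.Om => (d.L w.1, d.Ti i w.1))
    (Z₂ := fun ω => (d.L ω, d.Ti i ω)) (Qp_nonneg hd j)
    fun z => (Qp_fst hd j).law (fun ω => (d.L ω, d.Ti i ω)) z

theorem Q3_par (hd : d.OK A) (j i : ℕ) : Marg (d.Q3 j i) (d.Qp i) (fun u => (u.1.1, u.2)) :=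
  Marg.glue (Z₁ := fun ω => (d.L ω, d.Ti i ω)) (Z₂ := fun ω => (d.L ω, d.Ti i ω))
    (Qp_fst hd j) (Marg.id d.P)

theorem Qp_pos (hd : d.OK A) {i : ℕ} {w : d.Om × d.Om} (hw : 0 < d.Qp i w) :
    0 < d.P w.1 ∧ 0 < d.P w.2 ∧ (d.L w.1, d.Ti i w.1) = (d.L w.2, d.Ti i w.2) :=
  (glue_pos_iff (Z₁ := fun ω => (d.L ω, d.Ti i ω)) (Z₂ := fun ω => (d.L ω, d.Ti i ω))
    hd.law.nonneg hd.law.nonneg w).1 hw

theorem Qp_ta (hd : d.OK A) {i : ℕ} {w : d.Om × d.Om} (hw : 0 < d.Qp i w) :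
    |d.ta w| < (2 : ℝ) ^ (-(i : ℤ)) := by
  obtain ⟨_, _, h3⟩ := Qp_pos hd hw
  have h4 : d.Ti i w.2 = d.Ti i w.1 := (Prod.ext_iff.1 h3).2.symm
  have h5 := Int.abs_sub_lt_one_of_floor_eq_floor h4
  rw [← mul_sub, abs_mul, abs_of_pos (by positivity)] at h5
  rw [zpow_neg, zpow_natCast, ← one_div, lt_div_iff₀ (by positivity), mul_comm]
  exact h5

theorem Pr_fst (hd : d.OK A) (j : ℕ) (E : Set d.Om) :
    Pr (d.Qp j) {w | w.1 ∈ E} = Pr d.P E :=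
  (Qp_fst hd j).law (fun ω => ω ∈ E) True

theorem Pr_par (hd : d.OK A) (j i : ℕ) (E : Set (d.Om × d.Om)) :
    Pr (d.Q3 j i) {u | (u.1.1, u.2) ∈ E} = Pr (d.Qp i) E :=
  (Q3_par hd j i).law (fun w => w ∈ E) True

theorem e_le (hd : d.OK A) (t : d.Tau) (r : Fin 2) : |d.e t r| ≤ 1 := by
  unfold Dat.e
  fin_cases r
  · simp
  · simpa using hd.hE t

theorem th_sub (hd : d.OK A) (t t' : d.Tau) : |d.th t - d.th t'| ≤ 1 := by
  have h1 := hd.hth t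
  have h2 := hd.hth t'
  rw [abs_le]
  constructor <;> linarith

theorem S_sub (hd : d.OK A) (t t' : d.Tau) (r : Fin 2) : |d.S t r - d.S t' r| ≤ 2 := by
  have h1 := abs_le.1 (hd.hS t r)
  have h2 := abs_le.1 (hd.hS t' r)
  rw [abs_le]
  constructor <;> linarith

end

/-! ### the coefficient -/

/-- The coefficient of the velocity along the fan at the time `t₁`. -/
noncomputable def Fm (d : Dat) (t₀ t₁ t : d.Tau) : ℝ :=
  (d.th t - d.th t₀) * ∑ r, (d.S t₁ r - d.S t₀ r) * d.e t₁ r +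
    ((d.th t₁ - d.th t₀) - (d.th t - d.th t₀)) * ∑ r, (d.S t r - d.S t₀ r) * d.e t₁ r

theorem ZR_sub (d : Dat) (t₀ t₁ t : d.Tau) (l l' : d.Lam) :
    d.ZR t₀ t l - d.ZR t₀ t l' = Fm d t₀ t₁ t * (d.omR l 0 - d.omR l' 0) +
      (d.th t - d.th t₀) * (d.ct t₁ l - d.ct t₁ l') -
      ∑ r, (d.S t r - d.S t₀ r) * (d.pt t₁ l r - d.pt t₁ l' r) +
      ((d.th t - d.th t₀) * (d.S t₁ 1 - d.S t₀ 1) +
        ((d.th t₁ - d.th t₀) - (d.th t - d.th t₀)) * (d.S t 1 - d.S t₀ 1)) *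
        (d.ka t₁ l - d.ka t₁ l') := by
  unfold Fm Dat.ZR Dat.ZV Dat.V Dat.pt Dat.ct Dat.ka Dat.e Dat.yR Dat.omR Dat.beR
  simp only [Fin.sum_univ_two, Matrix.cons_val_zero, Matrix.cons_val_one]
  ring

theorem fl_eq {x y : ℝ} {p : ℕ} (h : ⌊(2 : ℝ) ^ p * x⌋ = ⌊(2 : ℝ) ^ p * y⌋) :
    |x - y| ≤ (2 : ℝ) ^ (-(p : ℤ)) := by
  have h5 := Int.abs_sub_lt_one_of_floor_eq_floor h
  rw [← mul_sub, abs_mul, abs_of_pos (by positivity)] at h5
  rw [zpow_neg, zpow_natCast, ← one_div, le_div_iff₀ (by positivity), mul_comm]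
  exact h5.le

/-- The form as a function of the velocity along the fan. -/
theorem err {d : Dat} {A : ℕ} (hd : d.OK A) {p : ℕ} (t₀ : d.Tau) {t₁ : d.Tau} (t : d.Tau)
    {l l' : d.Lam} (h : d.pd p t₁ l = d.pd p t₁ l') :
    |d.ZR t₀ t l - d.ZR t₀ t l' - Fm d t₀ t₁ t * (d.omR l 0 - d.omR l' 0)| ≤
      (2 : ℝ) ^ (4 - (p : ℤ)) := by
  unfold Dat.pd at h
  simp only [Prod.mk.injEq] at h
  obtain ⟨h1, h2, h3⟩ := h
  have h1' : ∀ r, |d.pt t₁ l r - d.pt t₁ l' r| ≤ (2 : ℝ) ^ (-(p : ℤ)) :=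
    fun r => fl_eq (congr_fun h1 r)
  have h2' := fl_eq h2
  have h3' := fl_eq h3
  have h4 : (2 : ℝ) ^ (4 - (p : ℤ)) = 16 * (2 : ℝ) ^ (-(p : ℤ)) := by
    rw [sub_eq_add_neg, zpow_add₀ (by norm_num)]
    norm_num
  rw [h4, ZR_sub d t₀ t₁ t l l', Fin.sum_univ_two]
  set P := (2 : ℝ) ^ (-(p : ℤ))
  have hP : 0 < P := by positivity
  have a1 : |(d.th t - d.th t₀) * (d.ct t₁ l - d.ct t₁ l')| ≤ 1 * P := by
    rw [abs_mul]
    exact mul_le_mul (th_sub hd _ _) h2' (abs_nonneg _) zero_le_one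
  have a2 : ∀ r, |(d.S t r - d.S t₀ r) * (d.pt t₁ l r - d.pt t₁ l' r)| ≤ 2 * P := by
    intro r
    rw [abs_mul]
    exact mul_le_mul (S_sub hd _ _ _) (h1' r) (abs_nonneg _) zero_le_two
  have a3 : |(d.th t - d.th t₀) * (d.S t₁ 1 - d.S t₀ 1) +
      ((d.th t₁ - d.th t₀) - (d.th t - d.th t₀)) * (d.S t 1 - d.S t₀ 1)| ≤ 4 := by
    refine (abs_add_le _ _).trans ?_
    rw [abs_mul, abs_mul]
    have b1 : |d.th t - d.th t₀| * |d.S t₁ 1 - d.S t₀ 1| ≤ 1 * 2 :=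
      mul_le_mul (th_sub hd _ _) (S_sub hd _ _ _) (abs_nonneg _) zero_le_one
    have b2 : |(d.th t₁ - d.th t₀) - (d.th t - d.th t₀)| * |d.S t 1 - d.S t₀ 1| ≤ 1 * 2 := by
      refine mul_le_mul ?_ (S_sub hd _ _ _) (abs_nonneg _) zero_le_one
      rw [show (d.th t₁ - d.th t₀) - (d.th t - d.th t₀) = d.th t₁ - d.th t by ring]
      exact th_sub hd _ _
    linarith
  have a4 : |((d.th t - d.th t₀) * (d.S t₁ 1 - d.S t₀ 1) +
      ((d.th t₁ - d.th t₀) - (d.th t - d.th t₀)) * (d.S t 1 - d.S t₀ 1)) *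
        (d.ka t₁ l - d.ka t₁ l')| ≤ 4 * P := by
    rw [abs_mul]
    exact mul_le_mul a3 h3' (abs_nonneg _) (by norm_num)
  have a20 := a2 0
  have a21 := a2 1
  rw [abs_le] at a1 a20 a21 a4 ⊢
  constructor <;> linarith

/-- The size of the coefficient for a typical partner. -/
theorem form_size {a b l e : Fin 2 → ℝ} {τ τ₁ η ρ lm F : ℝ} (he : ∀ r, |e r| ≤ 1)
    (hl : ∀ r, |l r| ≤ lm) (hb : ∀ r, |b r - τ * l r| ≤ η * |τ|) (hη : 0 ≤ η)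
    (h1 : |τ| ≤ |τ₁|) (h2 : 32 * η ≤ ρ) (h3 : 16 * |τ| * lm ≤ F) (hF : ρ * |τ₁| ≤ F)
    (hF' : F = |∑ r, (a r + τ₁ * l r) * e r|) :
    |τ| * (3 / 4 * F) ≤ |τ * ∑ r, a r * e r + (τ₁ - τ) * ∑ r, b r * e r| ∧
    |τ * ∑ r, a r * e r + (τ₁ - τ) * ∑ r, b r * e r| ≤ |τ| * (5 / 4 * F) := by
  set x := ∑ r, (a r + τ₁ * l r) * e r with hx
  set y := -(τ * (τ * ∑ r, l r * e r)) + (τ₁ - τ) * ∑ r, (b r - τ * l r) * e r with hy
  have h4 : τ * ∑ r, a r * e r + (τ₁ - τ) * ∑ r, b r * e r = τ * x + y := by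
    rw [hx, hy]
    simp only [Fin.sum_univ_two]
    ring
  have hlm : 0 ≤ lm := (abs_nonneg _).trans (hl 0)
  have h5 : |∑ r, l r * e r| ≤ 2 * lm := by
    refine (Finset.abs_sum_le_sum_abs _ _).trans ?_
    rw [Fin.sum_univ_two, abs_mul, abs_mul]
    have b0 : |l 0| * |e 0| ≤ lm * 1 := mul_le_mul (hl 0) (he 0) (abs_nonneg _) hlm
    have b1 : |l 1| * |e 1| ≤ lm * 1 := mul_le_mul (hl 1) (he 1) (abs_nonneg _) hlm
    linarith
  have hητ : 0 ≤ η * |τ| := mul_nonneg hη (abs_nonneg _)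
  have h6 : |∑ r, (b r - τ * l r) * e r| ≤ 2 * (η * |τ|) := by
    refine (Finset.abs_sum_le_sum_abs _ _).trans ?_
    rw [Fin.sum_univ_two, abs_mul, abs_mul]
    have b0 : |b 0 - τ * l 0| * |e 0| ≤ (η * |τ|) * 1 :=
      mul_le_mul (hb 0) (he 0) (abs_nonneg _) hητ
    have b1 : |b 1 - τ * l 1| * |e 1| ≤ (η * |τ|) * 1 :=
      mul_le_mul (hb 1) (he 1) (abs_nonneg _) hητ
    linarith
  have h7 : |τ₁ - τ| ≤ 2 * |τ₁| := by
    refine (abs_sub _ _).trans ?_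
    linarith
  have h8 : |y| ≤ |τ| * (F / 4) := by
    rw [hy]
    refine (abs_add_le _ _).trans ?_
    rw [abs_neg, abs_mul, abs_mul, abs_mul]
    have b0 : |τ| * (|τ| * |∑ r, l r * e r|) ≤ |τ| * (|τ| * (2 * lm)) := by
      gcongr
    have b1 : |τ₁ - τ| * |∑ r, (b r - τ * l r) * e r| ≤ (2 * |τ₁|) * (2 * (η * |τ|)) :=
      mul_le_mul h7 h6 (abs_nonneg _) (by positivity)
    have b2 : |τ| * (|τ| * (2 * lm)) ≤ |τ| * (F / 8) := by
      refine mul_le_mul_of_nonneg_left ?_ (abs_nonneg _)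
      linarith
    have b3 : (2 * |τ₁|) * (2 * (η * |τ|)) ≤ |τ| * (F / 8) := by
      have b4 : 32 * η * |τ₁| ≤ F := le_trans (mul_le_mul_of_nonneg_right h2 (abs_nonneg _)) hF
      have b5 : |τ| * (32 * η * |τ₁|) ≤ |τ| * F := mul_le_mul_of_nonneg_left b4 (abs_nonneg _)
      linarith
    linarith
  rw [h4]
  have h9 : |τ * x| = |τ| * F := by rw [abs_mul, hF']
  have h10 : |τ * x| ≤ |τ * x + y| + |y| := by
    have := abs_sub (τ * x + y) y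
    rwa [add_sub_cancel_right] at this
  have h11 : |τ * x + y| ≤ |τ * x| + |y| := abs_add_le _ _
  constructor <;> nlinarith

end Pool.OCS.M12
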