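import Pool.Agent.H12.OCS.MatA

/-!
# The relation of the mates: the label and the size of the forms

The label of a pair is minus the logarithm of `F1`. The forms (base, partner at the scale `i`)
have the size `2 ^ (-(c + i))` on the cells of the mates, `c` the label; by `RowM` the rows
`s + c + i`, `s` active, are not heavy, but heavy rows are dense.
-/

set_option autoImplicit false

namespace Pool.OCS.M12

open Finset Real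
open Pool.Agent.H49.Ent Pool.Agent.H32.Dense Pool.STK Pool.KAF

/-- The defect of the relation. -/
noncomputable def F1 (d : Dat) (Λ : d.Om → Fin 2 → ℝ) (w : d.Om × d.Om) : ℝ :=
  |∑ r, (d.sg w r + d.ta w * Λ w.1 r) * d.e (d.T w.2) r|

/-- Its label. -/
noncomputable def cl (d : Dat) (Λ : d.Om → Fin 2 → ℝ) (w : d.Om × d.Om) : ℤ :=
  max (-(64 * d.X : ℤ)) (min (64 * d.X) (-Int.log 2 (F1 d Λ w)))

theorem cl_lb {d : Dat} {Λ : d.Om → Fin 2 → ℝ}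
    (hΛ : ∀ ω ω', d.L ω = d.L ω' → d.T ω = d.T ω' → Λ ω = Λ ω') : d.Lb (cl d Λ) := by
  intro w w' h1 h2 h3
  unfold cl F1 Dat.sg Dat.ta
  rw [hΛ w.1 w'.1 h1 h2, h2, h3]

theorem cl_abs (d : Dat) (Λ : d.Om → Fin 2 → ℝ) (w : d.Om × d.Om) : |cl d Λ w| ≤ 64 * d.X := by
  unfold cl
  rw [abs_le]
  omega

/-- The event: the form is as large as the label says. -/
def Ws (d : Dat) (n k' i : ℕ) : Set (ℤ × d.Tau × d.Tau × d.Tau) :=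
  {x | x.1 + i ≤ 6 * n ∧ (2 : ℝ) ^ (-(x.1 + i + k' + 1)) ≤ |Fm d x.2.1 x.2.2.1 x.2.2.2| ∧
    |Fm d x.2.1 x.2.2.1 x.2.2.2| ≤ (2 : ℝ) ^ (2 - (x.1 + i))}

theorem GM_eq {d : Dat} {c : d.Om × d.Om → ℤ} {n s : ℕ} {v w : d.Om × d.Om}
    (h : d.GM c n s v = d.GM c n s w) : d.T v.1 = d.T w.1 ∧ d.T v.2 = d.T w.2 ∧ c v = c w ∧
      d.pd (max d.X (s + 8 * n)) (d.T w.2) (d.L v.1) =
        d.pd (max d.X (s + 8 * n)) (d.T w.2) (d.L w.1) ∧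
      d.omd s (d.L v.1) 0 = d.omd s (d.L w.1) 0 := by
  unfold Dat.GM at h
  simp only [Prod.mk.injEq] at h
  obtain ⟨h1, h2, h3, h4, h5⟩ := h
  rw [h2] at h4
  exact ⟨h1, h2, h3, h4, h5⟩

/-- The forms in the cells of the mates. -/
theorem rowM_use {d : Dat} {A : ℕ} (hd : d.OK A) {c : d.Om × d.Om → ℤ} {n i s k' : ℕ}
    {u : (d.Om × d.Om) × d.Om} {v : d.Om × d.Om}
    (hW : (c u.1, d.T u.1.1, d.T u.1.2, d.T u.2) ∈ Ws d n k' i)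
    (h : d.GM c n s v = d.GM c n s u.1) {a : ℕ}
    (ha : (2 : ℝ) ^ (-((s : ℤ) + a)) ≤ |d.omR (d.L v.1) 0 - d.omR (d.L u.1.1) 0|)
    (hs : (s : ℤ) + 6 * n + a + k' + 6 ≤ d.X) :
    (2 : ℝ) ^ (-((s : ℤ) + (c u.1 + i) + (a + k' + 2))) ≤
      |d.ZR (d.T u.1.1) (d.T u.2) (d.L u.1.1) - d.ZR (d.T u.1.1) (d.T u.2) (d.L v.1)| := by
  obtain ⟨_, _, _, h4, _⟩ := GM_eq h
  obtain ⟨hW1, hW2, _⟩ := hW
  simp only at hW1 hW2
  have h5 := err hd (d.T u.1.1) (d.T u.2) h4.symm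
  set Z := d.ZR (d.T u.1.1) (d.T u.2) (d.L u.1.1) - d.ZR (d.T u.1.1) (d.T u.2) (d.L v.1)
  set F := Fm d (d.T u.1.1) (d.T u.1.2) (d.T u.2)
  have h6 : |F * (d.omR (d.L u.1.1) 0 - d.omR (d.L v.1) 0)| ≤
      |Z| + (2 : ℝ) ^ (4 - ((max d.X (s + 8 * n) : ℕ) : ℤ)) := by
    have h7 := abs_sub Z (Z - F * (d.omR (d.L u.1.1) 0 - d.omR (d.L v.1) 0))
    rw [sub_sub_cancel] at h7
    linarith
  have h8 : (2 : ℝ) ^ (-(c u.1 + i + k' + 1)) * (2 : ℝ) ^ (-((s : ℤ) + a)) ≤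
      |F * (d.omR (d.L u.1.1) 0 - d.omR (d.L v.1) 0)| := by
    rw [abs_mul, abs_sub_comm (d.omR (d.L u.1.1) 0)]
    exact mul_le_mul hW2 ha (by positivity) (abs_nonneg _)
  rw [← zpow_add₀ (by norm_num)] at h8
  have h9 : (2 : ℝ) ^ (4 - ((max d.X (s + 8 * n) : ℕ) : ℤ)) ≤
      (2 : ℝ) ^ (-((s : ℤ) + (c u.1 + i) + (a + k' + 2))) := by
    refine zpow_le_zpow_right₀ (by norm_num) ?_
    have : (d.X : ℤ) ≤ ((max d.X (s + 8 * n) : ℕ) : ℤ) := by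
      exact_mod_cast le_max_left _ _
    omega
  have h10 : (2 : ℝ) ^ (-(c u.1 + i + k' + 1) + -((s : ℤ) + a)) =
      2 * (2 : ℝ) ^ (-((s : ℤ) + (c u.1 + i) + (a + k' + 2))) := by
    rw [← zpow_one_add₀ (by norm_num)]
    congr 1
    ring
  linarith

theorem rowM_up {d : Dat} {A : ℕ} (hd : d.OK A) {c : d.Om × d.Om → ℤ} {n i s k k' : ℕ}
    {u : (d.Om × d.Om) × d.Om} {v : d.Om × d.Om} (hn : 1 ≤ n) (hk : 8 ≤ k)
    (hW : (c u.1, d.T u.1.1, d.T u.1.2, d.T u.2) ∈ Ws d n k' i)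
    (h : d.GM c n s v = d.GM c n s u.1) :
    |d.ZR (d.T u.1.1) (d.T u.2) (d.L u.1.1) - d.ZR (d.T u.1.1) (d.T u.2) (d.L v.1)| ≤
      (2 : ℝ) ^ ((k : ℤ) - (s + (c u.1 + i))) := by
  obtain ⟨_, _, _, h4, h5⟩ := GM_eq h
  obtain ⟨hW1, _, hW2⟩ := hW
  simp only at hW1 hW2
  have h6 := err hd (d.T u.1.1) (d.T u.2) h4.symm
  have h7 : |d.omR (d.L u.1.1) 0 - d.omR (d.L v.1) 0| ≤ (2 : ℝ) ^ (-(s : ℤ)) := fl_eq h5.symm
  set Z := d.ZR (d.T u.1.1) (d.T u.2) (d.L u.1.1) - d.ZR (d.T u.1.1) (d.T u.2) (d.L v.1)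
  set F := Fm d (d.T u.1.1) (d.T u.1.2) (d.T u.2)
  have h8 : |F * (d.omR (d.L u.1.1) 0 - d.omR (d.L v.1) 0)| ≤
      (2 : ℝ) ^ (2 - (c u.1 + i)) * (2 : ℝ) ^ (-(s : ℤ)) := by
    rw [abs_mul]
    exact mul_le_mul hW2 h7 (abs_nonneg _) (by positivity)
  rw [← zpow_add₀ (by norm_num)] at h8
  have h9 : |Z| ≤ |Z - F * (d.omR (d.L u.1.1) 0 - d.omR (d.L v.1) 0)| +
      |F * (d.omR (d.L u.1.1) 0 - d.omR (d.L v.1) 0)| := by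
    have := abs_add_le (Z - F * (d.omR (d.L u.1.1) 0 - d.omR (d.L v.1) 0))
      (F * (d.omR (d.L u.1.1) 0 - d.omR (d.L v.1) 0))
    rwa [sub_add_cancel] at this
  have h10 : (2 : ℝ) ^ (4 - ((max d.X (s + 8 * n) : ℕ) : ℤ)) ≤
      (2 : ℝ) ^ (2 - (c u.1 + i) + -(s : ℤ)) := by
    refine zpow_le_zpow_right₀ (by norm_num) ?_
    have : ((s + 8 * n : ℕ) : ℤ) ≤ ((max d.X (s + 8 * n) : ℕ) : ℤ) := by
      exact_mod_cast le_max_right _ _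
    push_cast at this
    omega
  have h11 : (2 : ℝ) ^ (2 - (c u.1 + i) + -(s : ℤ)) * 2 =
      (2 : ℝ) ^ (3 - ((s : ℤ) + (c u.1 + i))) := by
    rw [← zpow_add_one₀ (by norm_num)]
    congr 1
    ring
  have h12 : (2 : ℝ) ^ (3 - ((s : ℤ) + (c u.1 + i))) ≤
      (2 : ℝ) ^ ((k : ℤ) - (s + (c u.1 + i))) :=
    zpow_le_zpow_right₀ (by norm_num) (by omega)
  linarith

/-- The bad partners at the scale `i`. -/
def Bd (d : Dat) (G : Set d.Om) (m : ℤ) (n k k' i : ℕ) (Λ : d.Om → Fin 2 → ℝ) :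
    Set (d.Om × d.Om) :=
  {w | (w.1 ∈ G ∧ (2 : ℝ) ^ ((k : ℤ) - m - n) * |d.ta w| <
      ‖fun r => d.sg w r - d.ta w * Λ w.1 r‖) ∨ |d.ta w| < (2 : ℝ) ^ (-((i : ℤ) + k'))}

/-- The pairs for which the relation fails. -/
def Bp (d : Dat) (G : Set d.Om) (J : d.Om → Set ℕ) (m : ℤ) (n j g h : ℕ) (u : ℝ)
    (Λ : d.Om → Fin 2 → ℝ) : Set (d.Om × d.Om) :=
  {w | w.1 ∈ G ∧ w.2 ∈ G ∧ (2 : ℝ) ^ (-(m + (3 * n / 8 : ℕ))) * |d.ta w| < F1 d Λ w ∧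
    (2 : ℝ) ^ (-((j + g : ℕ) : ℤ)) ≤ |d.ta w| ∧ ‖Λ w.1‖ ≤ (2 : ℝ) ^ (-m) ∧
    ∀ j : ℕ, (j + 2) * h ≤ d.X →
      u * h ≤ (Set.ncard {r | r ∈ J w.1 ∧ j * h ≤ r ∧ r < (j + 1) * h} : ℝ)}

theorem F1_le {d : Dat} {A : ℕ} (hd : d.OK A) {Λ : d.Om → Fin 2 → ℝ} {w : d.Om × d.Om} {m : ℤ}
    {n : ℕ} (hm : -(4 * n + 2 : ℤ) ≤ m) (hΛ : ‖Λ w.1‖ ≤ (2 : ℝ) ^ (-m)) :
    F1 d Λ w ≤ (2 : ℝ) ^ (4 * n + 4 : ℤ) := by
  have h1 : (2 : ℝ) ^ (-m) ≤ (2 : ℝ) ^ (4 * n + 2 : ℤ) :=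
    zpow_le_zpow_right₀ (by norm_num) (by omega)
  have h2 : (1 : ℝ) ≤ (2 : ℝ) ^ (4 * n : ℤ) := one_le_zpow₀ (by norm_num) (by omega)
  have h3 : (2 : ℝ) ^ (4 * n + 2 : ℤ) = 4 * (2 : ℝ) ^ (4 * n : ℤ) := by
    rw [zpow_add₀ (by norm_num)]
    norm_num
    ring
  have h4 : (2 : ℝ) ^ (4 * n + 4 : ℤ) = 16 * (2 : ℝ) ^ (4 * n : ℤ) := by
    rw [zpow_add₀ (by norm_num)]
    norm_num
    ring
  have h5 : ∀ r, |(d.sg w r + d.ta w * Λ w.1 r) * d.e (d.T w.2) r| ≤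
      2 + (2 : ℝ) ^ (-m) := by
    intro r
    rw [abs_mul]
    have a1 : |d.sg w r + d.ta w * Λ w.1 r| ≤ 2 + (2 : ℝ) ^ (-m) := by
      refine (abs_add_le _ _).trans ?_
      have a2 : |d.sg w r| ≤ 2 := S_sub hd _ _ _
      have a3 : |d.ta w * Λ w.1 r| ≤ 1 * (2 : ℝ) ^ (-m) := by
        rw [abs_mul]
        exact mul_le_mul (th_sub hd _ _) ((norm_le_pi_norm (Λ w.1) r).trans hΛ) (abs_nonneg _)
          zero_le_one
      linarith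
    calc |d.sg w r + d.ta w * Λ w.1 r| * |d.e (d.T w.2) r| ≤ (2 + (2 : ℝ) ^ (-m)) * 1 :=
          mul_le_mul a1 (e_le hd _ _) (abs_nonneg _) (by positivity)
      _ = _ := mul_one _
  unfold F1
  refine (Finset.abs_sum_le_sum_abs _ _).trans ?_
  rw [Fin.sum_univ_two]
  have h50 := h5 0
  have h51 := h5 1
  linarith

/-- The label of a bad pair. -/
theorem cl_spec {d : Dat} {A : ℕ} (hd : d.OK A) {G : Set d.Om} {J : d.Om → Set ℕ} {m : ℤ}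
    {n j g h : ℕ} {u : ℝ} {Λ : d.Om → Fin 2 → ℝ} {w : d.Om × d.Om} (hs : Siz d n h m)
    (hj : j ≤ n / 2) (hg : 64 * g ≤ n) (hw : w ∈ Bp d G J m n j g h u Λ) :
    (2 : ℝ) ^ (-cl d Λ w) ≤ F1 d Λ w ∧ F1 d Λ w < (2 : ℝ) ^ (1 - cl d Λ w) ∧
      -(4 * n + 4 : ℤ) ≤ cl d Λ w ∧ cl d Λ w ≤ 3 * n := by
  obtain ⟨_, _, h1, h2, h3, _⟩ := hw
  have h0 : (2 : ℝ) ^ (-(m + (3 * n / 8 : ℕ)) + -((j + g : ℕ) : ℤ)) < F1 d Λ w := by
    refine lt_of_le_of_lt ?_ h1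
    rw [zpow_add₀ (by norm_num)]
    gcongr
  have hF : 0 < F1 d Λ w := lt_trans (by positivity) h0
  have h4 := Int.zpow_log_le_self (b := 2) (by norm_num) hF
  have h5 := Int.lt_zpow_succ_log_self (b := 2) (by norm_num) (F1 d Λ w)
  push_cast at h4 h5
  have h6 := F1_le hd hs.m1 h3
  have h7 : Int.log 2 (F1 d Λ w) ≤ 4 * n + 4 := by
    have := h4.trans h6
    exact (zpow_le_zpow_iff_right₀ (by norm_num)).1 this
  have h8 : -(m + (3 * n / 8 : ℕ)) + -((j + g : ℕ) : ℤ) < Int.log 2 (F1 d Λ w) + 1 := by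
    have := h0.trans h5
    exact (zpow_lt_zpow_iff_right₀ (by norm_num)).1 this
  have hn := hs.hn
  have hX := hs.nX
  have hh := hs.h1
  have hm := hs.m2
  push_cast at h8
  have h9 : cl d Λ w = -Int.log 2 (F1 d Λ w) := by
    unfold cl
    omega
  rw [h9]
  refine ⟨by rwa [neg_neg], ?_, by omega, by omega⟩
  rw [show 1 - -Int.log 2 (F1 d Λ w) = Int.log 2 (F1 d Λ w) + 1 by ring]
  exact h5

/-- The form has the size of its label for good partners. -/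
theorem mem_Ws {d : Dat} {A : ℕ} (hd : d.OK A) {G : Set d.Om} {J : d.Om → Set ℕ} {m : ℤ}
    {n j g h k₅ lam k' i : ℕ} {u : ℝ} {Λ : d.Om → Fin 2 → ℝ} {x : (d.Om × d.Om) × d.Om}
    (hs : Siz d n h m)
    (hj : j ≤ n / 2) (hg : 64 * g ≤ n) (hlam : 64 * lam ≤ n) (hn : 8 * k₅ + 256 ≤ n)
    (hi : n ≤ i) (hi' : i < 2 * n) (hx : 0 < d.Q3 j i x)
    (hw : x.1 ∈ Bp d G J m n j g h u Λ) (hb : (x.1.1, x.2) ∉ Bd d G m n (k₅ + lam) k' i Λ) :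
    (cl d Λ x.1, d.T x.1.1, d.T x.1.2, d.T x.2) ∈ Ws d n k' i := by
  obtain ⟨h1, h2, h3, h4⟩ := cl_spec hd hs hj hg hw
  obtain ⟨hG, _, hw1, hw2, hw3, _⟩ := hw
  have hpos := (Q3_par hd j i).pos (Q3_nonneg hd j i) hx
  have hta := Qp_ta hd hpos
  unfold Bd at hb
  simp only [Set.mem_ofPred_eq, not_or, not_and, not_lt] at hb
  obtain ⟨hb1, hb2⟩ := hb
  have hb1 := hb1 hG
  set τ := d.ta (x.1.1, x.2) with hτ
  set τ₁ := d.ta x.1 with hτ₁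
  have hη : (0 : ℝ) ≤ (2 : ℝ) ^ (((k₅ + lam : ℕ) : ℤ) - m - n) := by positivity
  have key := form_size (a := d.sg x.1) (b := d.sg (x.1.1, x.2)) (l := Λ x.1.1)
    (e := d.e (d.T x.1.2)) (τ := τ) (τ₁ := τ₁)
    (η := (2 : ℝ) ^ (((k₅ + lam : ℕ) : ℤ) - m - n)) (ρ := (2 : ℝ) ^ (-(m + (3 * n / 8 : ℕ))))
    (lm := (2 : ℝ) ^ (-m)) (F := F1 d Λ x.1) (e_le hd _)
    (fun r => (norm_le_pi_norm (Λ x.1.1) r).trans hw3)
    (fun r => (norm_le_pi_norm (fun r => d.sg (x.1.1, x.2) r - τ * Λ x.1.1 r) r).trans hb1)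
    hη ?_ ?_ ?_ hw1.le rfl
  · have h5 : Fm d (d.T x.1.1) (d.T x.1.2) (d.T x.2) =
        τ * ∑ r, d.sg x.1 r * d.e (d.T x.1.2) r +
          (τ₁ - τ) * ∑ r, d.sg (x.1.1, x.2) r * d.e (d.T x.1.2) r := rfl
    rw [← h5] at key
    obtain ⟨k1, k2⟩ := key
    refine ⟨?_, ?_, ?_⟩
    · show cl d Λ x.1 + i ≤ 6 * n
      omega
    · show (2 : ℝ) ^ (-(cl d Λ x.1 + i + k' + 1)) ≤ |Fm d (d.T x.1.1) (d.T x.1.2) (d.T x.2)|
      refine le_trans ?_ k1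
      have h6 : (2 : ℝ) ^ (-((i : ℤ) + k')) * (2 : ℝ) ^ (-cl d Λ x.1) ≤ |τ| * F1 d Λ x.1 :=
        mul_le_mul hb2 h1 (by positivity) (abs_nonneg _)
      rw [← zpow_add₀ (by norm_num)] at h6
      have h7 : (2 : ℝ) ^ (-((i : ℤ) + k') + -cl d Λ x.1) =
          2 * (2 : ℝ) ^ (-(cl d Λ x.1 + i + k' + 1)) := by
        rw [← zpow_one_add₀ (by norm_num)]
        congr 1
        ring
      have h8 : (0 : ℝ) < (2 : ℝ) ^ (-(cl d Λ x.1 + i + k' + 1)) := by positivity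
      linarith
    · show |Fm d (d.T x.1.1) (d.T x.1.2) (d.T x.2)| ≤ (2 : ℝ) ^ (2 - (cl d Λ x.1 + i))
      refine k2.trans ?_
      have h6 : |τ| * F1 d Λ x.1 ≤ (2 : ℝ) ^ (-(i : ℤ)) * (2 : ℝ) ^ (1 - cl d Λ x.1) :=
        mul_le_mul hta.le h2.le (abs_nonneg _) (by positivity)
      rw [← zpow_add₀ (by norm_num)] at h6
      have h7 : (2 : ℝ) ^ (2 - (cl d Λ x.1 + i)) =
          2 * (2 : ℝ) ^ (-(i : ℤ) + (1 - cl d Λ x.1)) := by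
        rw [← zpow_one_add₀ (by norm_num)]
        congr 1
        ring
      have h8 : (0 : ℝ) < (2 : ℝ) ^ (-(i : ℤ) + (1 - cl d Λ x.1)) := by positivity
      linarith
  · refine le_trans hta.le (le_trans ?_ hw2)
    exact zpow_le_zpow_right₀ (by norm_num) (by omega)
  · rw [show (32 : ℝ) = (2 : ℝ) ^ (5 : ℤ) by norm_num, ← zpow_add₀ (by norm_num)]
    exact zpow_le_zpow_right₀ (by norm_num) (by omega)
  · have h5 : 16 * |τ| * (2 : ℝ) ^ (-m) ≤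
        (2 : ℝ) ^ (4 : ℤ) * (2 : ℝ) ^ (-(i : ℤ)) * (2 : ℝ) ^ (-m) := by
      have : (16 : ℝ) = (2 : ℝ) ^ (4 : ℤ) := by norm_num
      rw [this]
      gcongr
    refine h5.trans (le_trans ?_ hw1.le)
    have h6 : (2 : ℝ) ^ (-(m + (3 * n / 8 : ℕ))) * (2 : ℝ) ^ (-((j + g : ℕ) : ℤ)) ≤
        (2 : ℝ) ^ (-(m + (3 * n / 8 : ℕ))) * |τ₁| := by gcongr
    refine le_trans ?_ h6
    rw [← zpow_add₀ (by norm_num), ← zpow_add₀ (by norm_num), ← zpow_add₀ (by norm_num)]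
    exact zpow_le_zpow_right₀ (by norm_num) (by omega)

end Pool.OCS.M12
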