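import Pool.Agent.H48.M5.Defs
import Pool.Agent.H86.OC.RASa

/-!
# The lemma of mates

The forms of a pair of samples `w₁`, `w₀` do not hit the heavy rows of the base sample `w₁`
(`RowOK`). Let `x₀` be a context (the time of a mate and the times of references), `Y` data of the
line and `om` a number of the line such that the form changes by about `2 ^ (-q)` times the change
of `om` when `(x₀, Y)` is fixed. Then the rows `s + q`, with `om` active at the depth `s` given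
`(x₀, Y)`, are not heavy.
-/

set_option autoImplicit false

namespace Pool.Mate

open Finset Real
open Pool.Agent.H49.Ent Pool.Agent.H32.Dense Pool.STK Pool.KAF

section

variable {Ω γ γ' : Type} [Fintype Ω]

/-- Activity. Seen from the sample `v` the law of `om`, given `G`, is not concentrated near
`om v`. -/
def act (Q : Ω → ℝ) (G : Ω → γ) (om : Ω → ℝ) (c₁ : ℝ) (k₇ s : ℕ) (v : Ω) : Prop :=
  c₁ ≤ Pr (Pool.Agent.H49.Ent.cond Q G (G v)) {v' | (2 : ℝ) ^ (-((s : ℤ) + k₇)) ≤ |om v' - om v|}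

theorem cond_iff (Q : Ω → ℝ) {G : Ω → γ} {G' : Ω → γ'} {v : Ω}
    (h : ∀ v', G v' = G v ↔ G' v' = G' v) :
    Pool.Agent.H49.Ent.cond Q G (G v) = Pool.Agent.H49.Ent.cond Q G' (G' v) := by
  classical
  have h1 : law Q G (G v) = law Q G' (G' v) := by
    unfold law
    refine Finset.sum_congr rfl fun v' _ => ?_
    by_cases h2 : G v' = G v
    · rw [if_pos h2, if_pos ((h v').1 h2)]
    · rw [if_neg h2, if_neg fun h3 => h2 ((h v').2 h3)]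
  funext v'
  unfold Pool.Agent.H49.Ent.cond
  rw [h1]
  by_cases h2 : G v' = G v
  · rw [if_pos h2, if_pos ((h v').1 h2)]
  · rw [if_neg h2, if_neg fun h3 => h2 ((h v').2 h3)]

theorem act_iff (Q : Ω → ℝ) {G : Ω → γ} {G' : Ω → γ'} {v : Ω}
    (h : ∀ v', G v' = G v ↔ G' v' = G' v) (om : Ω → ℝ) (c₁ : ℝ) (k₇ s : ℕ) :
    act Q G om c₁ k₇ s v ↔ act Q G' om c₁ k₇ s v := by
  unfold act
  rw [cond_iff Q h]

/-- The probability of an event as a sum. -/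
theorem Pr_sum (Q : Ω → ℝ) (E : Set Ω) [DecidablePred (· ∈ E)] :
    Pr Q E = ∑ v, if v ∈ E then Q v else 0 := by
  classical
  unfold Pr Pool.Agent.H49.Ent.law
  refine Finset.sum_congr rfl fun v _ => ?_
  by_cases h : v ∈ E
  · rw [if_pos h, if_pos (by simpa using h)]
  · rw [if_neg h, if_neg (by simpa using h)]

theorem Pr_mono {Q : Ω → ℝ} (hQ : ∀ v, 0 ≤ Q v) {E F : Set Ω}
    (h : ∀ v, 0 < Q v → v ∈ E → v ∈ F) : Pr Q E ≤ Pr Q F := by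
  classical
  rw [Pr_sum, Pr_sum]
  refine Finset.sum_le_sum fun v _ => ?_
  by_cases h1 : v ∈ E
  · rcases (hQ v).eq_or_lt with h2 | h2
    · rw [← h2]
      simp
    · rw [if_pos h1, if_pos (h v h2 h1)]
  · rw [if_neg h1]
    split_ifs
    · exact hQ v
    · exact le_rfl

theorem Pr_nonneg {Q : Ω → ℝ} (hQ : ∀ v, 0 ≤ Q v) (E : Set Ω) : 0 ≤ Pr Q E := by
  classical
  rw [Pr_sum]
  exact Finset.sum_nonneg fun v _ => by
    split_ifs
    · exact hQ v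
    · exact le_rfl

/-- A lower bound for the probability of an event of pairs. -/
theorem Pr_dbl_ge {Q : Ω → ℝ} (hQ : ∀ v, 0 ≤ Q v) (G : Ω → γ) (P : Ω → Ω → Prop) (E : Set Ω)
    {c₁ : ℝ} (h : ∀ v, 0 < Q v → v ∈ E →
      c₁ ≤ Pr (Pool.Agent.H49.Ent.cond Q G (G v)) {v' | P v v'}) :
    c₁ * Pr Q E ≤ Pr (dbl Q G) {z | P z.1 z.2} := by
  classical
  rw [Pool.OC.RS.Pr_dbl, Pr_sum, Finset.mul_sum]
  refine Finset.sum_le_sum fun v _ => ?_
  have h0 : ∑ v', Pool.Agent.H49.Ent.cond Q G (G v) v' * (if P v v' then (1 : ℝ) else 0) =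
      Pr (Pool.Agent.H49.Ent.cond Q G (G v)) {v' | P v v'} := by
    rw [Pr_sum]
    refine Finset.sum_congr rfl fun v' _ => ?_
    by_cases h1 : P v v'
    · rw [if_pos h1, if_pos (show v' ∈ {v' | P v v'} from h1), mul_one]
    · rw [if_neg h1, if_neg (show v' ∉ {v' | P v v'} from h1), mul_zero]
  rw [h0]
  by_cases h1 : v ∈ E
  · rw [if_pos h1]
    rcases (hQ v).eq_or_lt with h2 | h2
    · rw [← h2]
      simp
    · rw [mul_comm]
      exact mul_le_mul_of_nonneg_left (h v h2 h1) h2.le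
  · rw [if_neg h1, mul_zero]
    exact mul_nonneg (hQ v) (Pr_nonneg (cond_nonneg hQ _ _) _)

end

theorem fl_succ (x : ℝ) (s : ℕ) :
    ⌊(2 : ℝ) ^ (s + 1) * x⌋ - 2 * ⌊(2 : ℝ) ^ s * x⌋ = 0 ∨
      ⌊(2 : ℝ) ^ (s + 1) * x⌋ - 2 * ⌊(2 : ℝ) ^ s * x⌋ = 1 := by
  have h1 := Int.floor_le ((2 : ℝ) ^ s * x)
  have h2 := Int.lt_floor_add_one ((2 : ℝ) ^ s * x)
  have h3 := Int.floor_le ((2 : ℝ) ^ (s + 1) * x)
  have h4 := Int.lt_floor_add_one ((2 : ℝ) ^ (s + 1) * x)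
  set a := ⌊(2 : ℝ) ^ s * x⌋
  set b := ⌊(2 : ℝ) ^ (s + 1) * x⌋
  have h5 : (2 : ℝ) ^ (s + 1) * x = 2 * ((2 : ℝ) ^ s * x) := by
    rw [pow_succ]
    ring
  rw [h5] at h3 h4
  have h6 : (b : ℝ) < 2 * a + 2 := by linarith
  have h7 : (2 * a : ℝ) < b + 1 := by linarith
  have h8 : b < 2 * a + 2 := by exact_mod_cast h6
  have h9 : 2 * a < b + 1 := by exact_mod_cast h7
  omega

/-- The level of the data of the line: `X` digits, more for the depths after `a₂`. -/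
def lev (X a₂ s : ℕ) : ℕ := X + (s - a₂)

theorem lev_lt {X a₂ s : ℕ} (h : s ≤ a₂) : lev X a₂ s = X := by
  unfold lev
  omega

theorem lev_ge {X a₂ s : ℕ} (h : a₂ ≤ s) : lev X a₂ (s + 1) = lev X a₂ s + 1 := by
  unfold lev
  omega

/-- The cell of a mate. -/
noncomputable def cel {Ω : Type} {n : ℕ} (f : Ω → Fin n → ℝ) (om : Ω → ℝ) (X a₂ s : ℕ) (v : Ω) :
    (Fin n → ℤ) × ℤ :=
  (fun i => ⌊(2 : ℝ) ^ lev X a₂ s * f v i⌋, ⌊(2 : ℝ) ^ s * om v⌋)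

/-- The digits of the cell. -/
noncomputable def dig {Ω : Type} {n : ℕ} (f : Ω → Fin n → ℝ) (om : Ω → ℝ) (X a₂ s : ℕ) (v : Ω) :
    (Fin n → Fin 2) × Fin 2 :=
  (fun i => if ⌊(2 : ℝ) ^ lev X a₂ (s + 1) * f v i⌋ = 2 * ⌊(2 : ℝ) ^ lev X a₂ s * f v i⌋ + 1
    then 1 else 0,
    if ⌊(2 : ℝ) ^ (s + 1) * om v⌋ = 2 * ⌊(2 : ℝ) ^ s * om v⌋ + 1 then 1 else 0)

theorem dig_one {a a' b b' : ℤ} (h1 : a' - 2 * a = 0 ∨ a' - 2 * a = 1)
    (h2 : b' - 2 * b = 0 ∨ b' - 2 * b = 1) (h3 : a = b)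
    (h4 : (if a' = 2 * a + 1 then (1 : Fin 2) else 0) = if b' = 2 * b + 1 then 1 else 0) :
    a' = b' := by
  by_cases h5 : a' = 2 * a + 1 <;> by_cases h6 : b' = 2 * b + 1
  · omega
  · rw [if_pos h5, if_neg h6] at h4
    simp at h4
  · rw [if_neg h5, if_pos h6] at h4
    simp at h4
  · omega

theorem cel_next {Ω : Type} {n : ℕ} (f : Ω → Fin n → ℝ) (om : Ω → ℝ) (X a₂ s : ℕ) {v v' : Ω}
    (h1 : cel f om X a₂ s v = cel f om X a₂ s v') (h2 : dig f om X a₂ s v = dig f om X a₂ s v') :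
    cel f om X a₂ (s + 1) v = cel f om X a₂ (s + 1) v' := by
  unfold cel at *
  unfold dig at h2
  simp only [Prod.mk.injEq] at *
  obtain ⟨h3, h4⟩ := h1
  obtain ⟨h5, h6⟩ := h2
  refine ⟨funext fun i => ?_, dig_one (fl_succ _ _) (fl_succ _ _) h4 h6⟩
  have h7 : ⌊(2 : ℝ) ^ lev X a₂ s * f v i⌋ = ⌊(2 : ℝ) ^ lev X a₂ s * f v' i⌋ := congr_fun h3 i
  have h8 : (if ⌊(2 : ℝ) ^ lev X a₂ (s + 1) * f v i⌋ = 2 * ⌊(2 : ℝ) ^ lev X a₂ s * f v i⌋ + 1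
    then (1 : Fin 2) else 0) = if ⌊(2 : ℝ) ^ lev X a₂ (s + 1) * f v' i⌋ =
      2 * ⌊(2 : ℝ) ^ lev X a₂ s * f v' i⌋ + 1 then 1 else 0 := congr_fun h5 i
  by_cases hs : a₂ ≤ s
  · rw [lev_ge hs] at h8 ⊢
    exact dig_one (fl_succ _ _) (fl_succ _ _) h7 h8
  · rw [lev_lt (by omega)] at h7 ⊢
    exact h7

theorem cel_prev {Ω : Type} {n : ℕ} (f : Ω → Fin n → ℝ) (om : Ω → ℝ) (X a₂ s : ℕ) {v v' : Ω}
    (h1 : cel f om X a₂ (s + 1) v = cel f om X a₂ (s + 1) v') :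
    (cel f om X a₂ s v, dig f om X a₂ s v) = (cel f om X a₂ s v', dig f om X a₂ s v') := by
  unfold cel at *
  unfold dig
  simp only [Prod.mk.injEq] at *
  obtain ⟨h3, h4⟩ := h1
  have h5 : ⌊(2 : ℝ) ^ s * om v⌋ = ⌊(2 : ℝ) ^ s * om v'⌋ := by
    rcases fl_succ (om v) s with h5 | h5 <;> rcases fl_succ (om v') s with h6 | h6 <;> omega
  have h6 : ∀ i, ⌊(2 : ℝ) ^ lev X a₂ s * f v i⌋ = ⌊(2 : ℝ) ^ lev X a₂ s * f v' i⌋ := by
    intro i
    have h7 : ⌊(2 : ℝ) ^ lev X a₂ (s + 1) * f v i⌋ = ⌊(2 : ℝ) ^ lev X a₂ (s + 1) * f v' i⌋ :=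
      congr_fun h3 i
    by_cases hs : a₂ ≤ s
    · rw [lev_ge hs] at h7
      rcases fl_succ (f v i) (lev X a₂ s) with h5 | h5 <;>
        rcases fl_succ (f v' i) (lev X a₂ s) with h6 | h6 <;> omega
    · rw [lev_lt (by omega)] at h7 ⊢
      exact h7
  refine ⟨⟨funext h6, h5⟩, funext fun i => ?_, ?_⟩
  · have h7 : ⌊(2 : ℝ) ^ lev X a₂ (s + 1) * f v i⌋ = ⌊(2 : ℝ) ^ lev X a₂ (s + 1) * f v' i⌋ :=
      congr_fun h3 i
    rw [h7, h6 i]
  · rw [h4, h5]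

/-- **The lemma of mates.** `f` are the data of the line shared by the mates (`X` digits), `om` is
the number in which the mates differ; `2 ^ (-q)` is the size of the form. -/
theorem mate_sum {d : Pool.M5.RDat} {J : d.Om → Set ℕ} {n k k₁ : ℕ} {e δ : ℝ}
    (hR : d.RowOK J k k₁ (2 ^ n * 2) e δ) (hk : 2 ≤ k) {Ω ξ₀ ξ : Type} [Fintype Ω]
    {Q : Ω → ℝ} (hQ : IsLaw Q) (w₁ w₀ : Ω → d.Om) (x₀ : Ω → ξ₀) (x : Ω → ξ)
    (f : Ω → Fin n → ℝ) (om : Ω → ℝ) (q : Ω → ℤ) (W : Set Ω) (a₁ a₂ k₇ c : ℕ) {c₁ : ℝ}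
    (hc₁ : 0 < c₁)
    (hk₇ : k₇ + 1 ≤ k₁) (h1 : ∀ ω, law Q w₁ ω = d.P ω) (h0 : ∀ ω, law Q w₀ ω = d.P ω)
    (hL : ∀ v, 0 < Q v → d.L (w₀ v) = d.L (w₁ v))
    (hx : Det Q x (fun v => (x₀ v, d.T (w₁ v), d.T (w₀ v))))
    (hmi : Pool.KVA.MI Q (fun v => d.L (w₁ v)) x (fun _ => ()) ≤ δ * d.X)
    (hf : Det Q (fun v => (x₀ v, d.V (d.L (w₁ v)))) f)
    (hom : Det Q (fun v => (x₀ v, d.V (d.L (w₁ v)))) om)
    (hq : Det Q x (fun v => (q v, v ∈ W)))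
    (hδ : 0 ≤ δ * d.X) (ha : a₂ ≤ d.X)
    (hW : ∀ v, v ∈ W → a₂ + q v + k₇ + c + 2 ≤ d.X)
    (hup : ∀ v v', 0 < Q v → 0 < Q v' → v ∈ W → x₀ v = x₀ v' →
      |d.ZR (d.T (w₁ v)) (d.T (w₀ v)) (d.V (d.L (w₁ v))) -
        d.ZR (d.T (w₁ v)) (d.T (w₀ v)) (d.V (d.L (w₁ v')))| ≤
        (2 : ℝ) ^ (1 - q v) * |om v' - om v| + 2 ^ c * ‖f v' - f v‖)
    (hlo : ∀ v v', 0 < Q v → 0 < Q v' → v ∈ W → x₀ v = x₀ v' →
      (2 : ℝ) ^ (-q v) * |om v' - om v| - 2 ^ c * ‖f v' - f v‖ ≤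
      |d.ZR (d.T (w₁ v)) (d.T (w₀ v)) (d.V (d.L (w₁ v))) -
        d.ZR (d.T (w₁ v)) (d.T (w₀ v)) (d.V (d.L (w₁ v')))|) :
    ∑ s ∈ Finset.Ico a₁ a₂, Pr Q {v | v ∈ W ∧ 0 ≤ (s : ℤ) + q v ∧
      ((s : ℤ) + q v).toNat ∈ J (w₁ v) ∧
      act Q (fun v => (x₀ v, (fun i => ⌊(2 : ℝ) ^ d.X * f v i⌋), ⌊(2 : ℝ) ^ s * om v⌋)) om c₁ k₇
        s v} ≤ e * d.X / c₁ := by
  classical
  have hm0 : Pool.Agent.H49.Ent.CH Q (fun _ : Ω => ())
      (fun v => (x₀ v, d.V (d.L (w₁ v)))) ≤ δ * d.X := by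
    have : Pool.Agent.H49.Ent.CH Q (fun _ : Ω => ()) (fun v => (x₀ v, d.V (d.L (w₁ v)))) = 0 := by
      unfold Pool.Agent.H49.Ent.CH
      have h2 : H Q (fun ω => (((), (x₀ ω, d.V (d.L (w₁ ω)))) : Unit × ξ₀ × d.Nu)) =
          H Q (fun v => (x₀ v, d.V (d.L (w₁ v)))) := by
        unfold Pool.Agent.H49.Ent.H
        congr 1
        refine Finset.sum_congr rfl fun v _ => ?_
        have h3 : law Q (fun ω => (((), (x₀ ω, d.V (d.L (w₁ ω)))) : Unit × ξ₀ × d.Nu))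
            ((), (x₀ v, d.V (d.L (w₁ v)))) =
            law Q (fun v => (x₀ v, d.V (d.L (w₁ v)))) (x₀ v, d.V (d.L (w₁ v))) := by
          unfold Pool.Agent.H49.Ent.law
          refine Finset.sum_congr rfl fun v' _ => ?_
          simp only [Prod.mk.injEq, true_and]
        rw [h3]
      rw [h2, sub_self]
    rw [this]
    exact hδ
  -- the change of the data in a cell
  have hcell : ∀ (s : ℕ) (v v' : Ω), cel f om d.X a₂ s v = cel f om d.X a₂ s v' →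
      2 ^ c * ‖f v' - f v‖ ≤ (2 : ℝ) ^ ((c : ℤ) - lev d.X a₂ s) := by
    intro s v v' h
    unfold cel at h
    simp only [Prod.mk.injEq] at h
    have h2 : ‖f v' - f v‖ ≤ (2 : ℝ) ^ (-(lev d.X a₂ s : ℤ)) := by
      rw [pi_norm_le_iff_of_nonneg (by positivity)]
      intro i
      have h3 : ⌊(2 : ℝ) ^ lev d.X a₂ s * f v i⌋ = ⌊(2 : ℝ) ^ lev d.X a₂ s * f v' i⌋ :=
        congr_fun h.1 i
      have h5 := Int.abs_sub_lt_one_of_floor_eq_floor h3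
      rw [← mul_sub, abs_mul, abs_of_pos (by positivity)] at h5
      rw [Pi.sub_apply, Real.norm_eq_abs, abs_sub_comm, zpow_neg, zpow_natCast, ← one_div,
        le_div_iff₀ (by positivity), mul_comm]
      exact h5.le
    rw [show (c : ℤ) - lev d.X a₂ s = (c : ℤ) + -(lev d.X a₂ s : ℤ) by ring,
      zpow_add₀ (by norm_num), zpow_natCast]
    gcongr
  have hcelo : ∀ (s : ℕ) (v v' : Ω), cel f om d.X a₂ s v = cel f om d.X a₂ s v' →
      |om v' - om v| ≤ (2 : ℝ) ^ (-(s : ℤ)) := by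
    intro s v v' h
    unfold cel at h
    simp only [Prod.mk.injEq] at h
    have h5 := Int.abs_sub_lt_one_of_floor_eq_floor h.2
    rw [← mul_sub, abs_mul, abs_of_pos (by positivity)] at h5
    rw [abs_sub_comm, zpow_neg, zpow_natCast, ← one_div, le_div_iff₀ (by positivity), mul_comm]
    exact h5.le
  let enc : (Fin n → Fin 2) × Fin 2 ≃ Fin (2 ^ n * 2) :=
    (Equiv.prodCongr finFunctionFinEquiv (Equiv.refl (Fin 2))).trans finProdFinEquiv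
  have key := hR Ω ξ₀ ξ Unit (fun _ => (Fin n → ℤ) × ℤ) Q w₁ w₀ x₀ x (fun _ => ())
    (fun s v => cel f om d.X a₂ s v) (fun s v => enc (dig f om d.X a₂ s v)) q W a₁ a₂ hQ h1 h0 hL
    hx hmi (fun _ _ _ _ _ => rfl) hm0 ?_ ?_ ?_ ?_ ?_ ha
  · rw [le_div_iff₀ hc₁, Finset.sum_mul]
    refine le_trans (Finset.sum_le_sum fun s hs => ?_) key
    rw [mul_comm]
    rw [Finset.mem_Ico] at hs
    refine le_trans ?_ (Pr_dbl_ge hQ.nonneg (fun v => (x₀ v, (), cel f om d.X a₂ s v))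
      (fun v v' => v ∈ W ∧ 0 ≤ (s : ℤ) + q v ∧ ((s : ℤ) + q v).toNat ∈ J (w₁ v) ∧
        (2 : ℝ) ^ (-((s : ℤ) + q v + k₁)) ≤
        |d.ZR (d.T (w₁ v)) (d.T (w₀ v)) (d.V (d.L (w₁ v))) -
          d.ZR (d.T (w₁ v)) (d.T (w₀ v)) (d.V (d.L (w₁ v')))|)
      {v | v ∈ W ∧ 0 ≤ (s : ℤ) + q v ∧ ((s : ℤ) + q v).toNat ∈ J (w₁ v) ∧
      act Q (fun v => (x₀ v, (fun i => ⌊(2 : ℝ) ^ d.X * f v i⌋), ⌊(2 : ℝ) ^ s * om v⌋)) om c₁ k₇
        s v} (c₁ := c₁) ?_)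
    · exact le_rfl
    · rintro v hv ⟨hv1, hv2, hv3, hv4⟩
      unfold act at hv4
      refine hv4.trans ?_
      rw [cond_iff Q
        (G := fun v => (x₀ v, (fun i => ⌊(2 : ℝ) ^ d.X * f v i⌋), ⌊(2 : ℝ) ^ s * om v⌋))
        (G' := fun v => (x₀ v, (), cel f om d.X a₂ s v)) (v := v)
        (fun v' => by
          unfold cel
          rw [lev_lt hs.2.le]
          simp)]
      refine Pr_mono (cond_nonneg hQ.nonneg _ _) fun v' hv' h5 => ?_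
      obtain ⟨h6, h7⟩ := (cond_pos_iff hQ.nonneg _ _ _).1 hv'
      simp only [Prod.mk.injEq, true_and] at h7
      refine ⟨hv1, hv2, hv3, ?_⟩
      have h8 := hlo v v' hv h6 hv1 h7.1.symm
      refine le_trans ?_ h8
      have h5' : (2 : ℝ) ^ (-((s : ℤ) + k₇)) ≤ |om v' - om v| := h5
      have h9 : (2 : ℝ) ^ (-q v) * (2 : ℝ) ^ (-((s : ℤ) + k₇)) ≤
          (2 : ℝ) ^ (-q v) * |om v' - om v| := by gcongr
      rw [← zpow_add₀ (by norm_num)] at h9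
      have hWv := hW v hv1
      have h10 := (hcell s v v' h7.2.symm).trans
        (zpow_le_zpow_right₀ (by norm_num : (1 : ℝ) ≤ 2)
          (show (c : ℤ) - lev d.X a₂ s ≤ -q v + -((s : ℤ) + k₇) - 1 by
            rw [lev_lt hs.2.le]
            omega))
      have h11 : (2 : ℝ) ^ (-((s : ℤ) + q v + k₁)) ≤
          (2 : ℝ) ^ (-q v + -((s : ℤ) + k₇) - 1) :=
        zpow_le_zpow_right₀ (by norm_num) (by omega)
      have h12 : (2 : ℝ) ^ (-q v + -((s : ℤ) + k₇)) =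
          2 * (2 : ℝ) ^ (-q v + -((s : ℤ) + k₇) - 1) := by
        rw [zpow_sub_one₀ (by norm_num)]
        ring
      linarith
  · intro s _ v v' hv hv' h
    simp only [Prod.mk.injEq, true_and] at h
    have h2 := hf v v' hv hv' (by simp only [Prod.mk.injEq]; exact h)
    have h3 := hom v v' hv hv' (by simp only [Prod.mk.injEq]; exact h)
    simp only [cel, h2, h3]
  · intro s _ v v' hv hv' h
    simp only [Prod.mk.injEq] at h
    exact cel_next f om d.X a₂ s h.1 (enc.injective h.2)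
  · intro s _ v v' hv hv' h
    have h2 := cel_prev f om d.X a₂ s h
    simp only [Prod.mk.injEq] at h2 ⊢
    exact ⟨h2.1, by rw [h2.2]⟩
  · intro s _ v v' hv hv' h
    simp only [Prod.mk.injEq, true_and] at h
    exact hq v v' hv hv' h.1
  · intro s v v' hs hv hv' hvW h2 _ h3
    refine (hup v v' hv hv' hvW h2).trans ?_
    have hWv := hW v hvW
    have h4 := hcelo s v v' h3
    have h5 : (2 : ℝ) ^ (1 - q v) * |om v' - om v| ≤ (2 : ℝ) ^ (1 - q v) * (2 : ℝ) ^ (-(s : ℤ)) := by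
      gcongr
    rw [← zpow_add₀ (by norm_num)] at h5
    have h6 := (hcell s v v' h3).trans
        (zpow_le_zpow_right₀ (by norm_num : (1 : ℝ) ≤ 2)
          (show (c : ℤ) - lev d.X a₂ s ≤ 1 - q v + -(s : ℤ) by
            unfold lev
            omega))
    have h7 : (2 : ℝ) ^ (1 - q v + -(s : ℤ) + 1) ≤ (2 : ℝ) ^ ((k : ℤ) - (s + q v)) :=
      zpow_le_zpow_right₀ (by norm_num) (by omega)
    rw [zpow_add_one₀ (by norm_num)] at h7
    linarith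

end Pool.Mate
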